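import Pool.Agent.NH24.DZ.C

/-!
# Multiple zeta values of weight `k` whose arguments are near multiples of `k / b`: tuples
-/

set_option autoImplicit false

namespace Pool.Agent.NH24.GD

open Finset Filter

/-- `trunc [s_1, ..., s_r] m` is the sum of `∏ n_i ^ (-s_i)` over `m > n_1 > ... > n_r ≥ 1` -/
noncomputable def trunc : List ℕ → ℕ → ℝ
  | [], _ => 1
  | s :: l, m => ∑ j ∈ Finset.Ico 1 m, trunc l j / (j : ℝ) ^ s

/-- the multiple zeta value `ζ(s_1, ..., s_r)`, `s_1` belongs to the largest variable -/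
noncomputable def mzv : List ℕ → ℝ
  | [] => 1
  | s :: l => ∑' m : ℕ, trunc l (m + 1) / ((m + 1 : ℕ) : ℝ) ^ s

/-- the strictly decreasing lists of length `s` with entries in `[1, m)` -/
def dec : ℕ → ℕ → Finset (List ℕ)
  | 0, _ => {[]}
  | s + 1, m => (Ico 1 m).biUnion fun j => (dec s j).image (List.cons j)

/-- the product of the powers `n_i ^ w_i` -/
def pw : List ℕ → List ℕ → ℕ
  | n :: ns, w :: ws => n ^ w * pw ns ws
  | _, _ => 1

@[simp] lemma pw_nil (w : List ℕ) : pw [] w = 1 := by
  cases w <;> rfl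

@[simp] lemma pw_nil' (n : List ℕ) : pw n [] = 1 := by
  cases n <;> rfl

@[simp] lemma pw_cons (n w : ℕ) (ns ws : List ℕ) : pw (n :: ns) (w :: ws) = n ^ w * pw ns ws := rfl

lemma mem_dec {s m : ℕ} {n : List ℕ} :
    n ∈ dec s m ↔ n.length = s ∧ (m :: n).Pairwise (· > ·) ∧ ∀ x ∈ n, 1 ≤ x := by
  induction s generalizing m n with
  | zero =>
    rw [dec, mem_singleton]
    constructor
    · rintro rfl
      simp
    · rintro ⟨h, -⟩
      exact List.length_eq_zero_iff.1 h
  | succ s ih =>
    rw [dec, mem_biUnion]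
    constructor
    · rintro ⟨j, hj, hn⟩
      rw [mem_Ico] at hj
      rw [mem_image] at hn
      obtain ⟨n', hn', rfl⟩ := hn
      obtain ⟨h1, h2, h3⟩ := ih.1 hn'
      refine ⟨by rw [List.length_cons, h1], ?_, ?_⟩
      · rw [List.pairwise_cons]
        refine ⟨fun x hx => ?_, h2⟩
        rcases List.mem_cons.1 hx with rfl | hx
        · exact hj.2
        · have := (List.pairwise_cons.1 h2).1 x hx
          omega
      · intro x hx
        rcases List.mem_cons.1 hx with rfl | hx
        · exact hj.1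
        · exact h3 x hx
    · rintro ⟨h1, h2, h3⟩
      cases n with
      | nil => simp at h1
      | cons j n' =>
        rw [List.pairwise_cons] at h2
        refine ⟨j, mem_Ico.2 ⟨h3 j List.mem_cons_self, h2.1 j List.mem_cons_self⟩, ?_⟩
        rw [mem_image]
        refine ⟨n', ih.2 ⟨by simpa using h1, h2.2, fun x hx => h3 x (List.mem_cons_of_mem _ hx)⟩, rfl⟩

lemma trunc_eq (w : List ℕ) : ∀ m, trunc w m = ∑ n ∈ dec w.length m, 1 / (pw n w : ℝ) := by
  induction w with
  | nil =>
    intro m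
    rw [trunc, List.length_nil, dec, sum_singleton]
    simp
  | cons s l ih =>
    intro m
    rw [trunc, List.length_cons, dec, sum_biUnion]
    · refine sum_congr rfl fun j hj => ?_
      rw [sum_image (fun a _ b _ h => (List.cons.inj h).2), ih, sum_div]
      refine sum_congr rfl fun n _ => ?_
      rw [pw_cons]
      push_cast
      rw [div_div, mul_comm]
    · intro i _ j _ hij
      rw [Function.onFun, disjoint_left]
      intro n hn hn'
      rw [mem_image] at hn hn'
      obtain ⟨a, -, rfl⟩ := hn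
      obtain ⟨b, -, hb⟩ := hn'
      exact hij (List.cons.inj hb).1.symm

lemma trunc_nonneg (w : List ℕ) : ∀ m, 0 ≤ trunc w m := by
  intro m
  rw [trunc_eq]
  positivity

lemma sum_sq_le (m : ℕ) : ∑ j ∈ Ico 1 m, 1 / (j : ℝ) ^ 2 ≤ 2 := by
  have h1 : ∑ j ∈ Ico 1 m, 1 / (j : ℝ) ^ 2 = ∑ i ∈ range (m - 1), 1 / ((i + 1 : ℕ) : ℝ) ^ 2 := by
    rw [Finset.sum_Ico_eq_sum_range]
    refine sum_congr rfl fun i _ => ?_
    rw [add_comm 1 i]
  rw [h1]
  exact (DZ.summable_inv_sq.sum_le_tsum _ (fun _ _ => by positivity)).trans DZ.sum_inv_sq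

lemma trunc_le (w : List ℕ) (hw : ∀ x ∈ w, 2 ≤ x) : ∀ m, trunc w m ≤ 2 ^ w.length := by
  induction w with
  | nil =>
    intro m
    rw [trunc]
    simp
  | cons s l ih =>
    intro m
    rw [trunc]
    have hs : 2 ≤ s := hw s List.mem_cons_self
    calc ∑ j ∈ Ico 1 m, trunc l j / (j : ℝ) ^ s ≤ ∑ j ∈ Ico 1 m, 2 ^ l.length * (1 / (j : ℝ) ^ 2) := by
          refine sum_le_sum fun j hj => ?_
          rw [mem_Ico] at hj
          have hj1 : (1 : ℝ) ≤ j := by exact_mod_cast hj.1
          rw [mul_one_div]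
          exact div_le_div₀ (by positivity) (ih (fun x hx => hw x (List.mem_cons_of_mem _ hx)) j)
            (by positivity) (pow_le_pow_right₀ hj1 hs)
      _ = 2 ^ l.length * ∑ j ∈ Ico 1 m, 1 / (j : ℝ) ^ 2 := by rw [mul_sum]
      _ ≤ 2 ^ l.length * 2 := mul_le_mul_of_nonneg_left (sum_sq_le m) (by positivity)
      _ = 2 ^ (s :: l).length := by rw [List.length_cons, pow_succ]

lemma tendsto_trunc (w : List ℕ) (hw : ∀ x ∈ w, 2 ≤ x) :
    Tendsto (fun M : ℕ => trunc w (M + 1)) atTop (nhds (mzv w)) := by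
  cases w with
  | nil =>
    have h1 : (fun M : ℕ => trunc [] (M + 1)) = fun _ => (1 : ℝ) := by
      funext M
      rw [trunc]
    rw [h1, mzv]
    exact tendsto_const_nhds
  | cons s l =>
    have hs : 2 ≤ s := hw s List.mem_cons_self
    have hl : ∀ x ∈ l, 2 ≤ x := fun x hx => hw x (List.mem_cons_of_mem _ hx)
    have h1 : Summable fun m : ℕ => trunc l (m + 1) / ((m + 1 : ℕ) : ℝ) ^ s := by
      refine Summable.of_nonneg_of_le (fun m => div_nonneg (trunc_nonneg _ _) (by positivity))
        (fun m => ?_) (DZ.summable_inv_sq.mul_left (2 ^ l.length))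
      have hj1 : (1 : ℝ) ≤ ((m + 1 : ℕ) : ℝ) := by
        push_cast
        have : (0 : ℝ) ≤ m := Nat.cast_nonneg m
        linarith
      rw [mul_one_div]
      exact div_le_div₀ (by positivity) (trunc_le l hl _) (by positivity) (pow_le_pow_right₀ hj1 hs)
    have h2 := h1.hasSum.tendsto_sum_nat
    rw [mzv]
    refine h2.congr fun M => ?_
    rw [trunc, Finset.sum_Ico_eq_sum_range]
    refine sum_congr (by simp) fun i _ => ?_
    rw [add_comm 1 i]

lemma pw_replicate (s : ℕ) (n : List ℕ) (h : n.length = s) : pw n (List.replicate s 2) = n.prod ^ 2 := by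
  induction s generalizing n with
  | zero =>
    rw [List.length_eq_zero_iff.1 h]
    simp
  | succ s ih =>
    cases n with
    | nil => simp at h
    | cons j n =>
      rw [List.replicate_succ, pw_cons, ih n (by simpa using h), List.prod_cons, mul_pow]

lemma sum_prod_le (s m : ℕ) : ∑ n ∈ dec s m, 1 / ((n.prod : ℕ) : ℝ) ^ 2 ≤ 2 ^ s := by
  have h1 := trunc_le (List.replicate s 2) (fun x hx => by
    rw [List.eq_of_mem_replicate hx]) m
  rw [trunc_eq, List.length_replicate] at h1
  refine le_trans (le_of_eq ?_) h1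
  refine sum_congr rfl fun n hn => ?_
  rw [pw_replicate s n (mem_dec.1 hn).1]
  push_cast
  rfl

end Pool.Agent.NH24.GD
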