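import Pool.Agent.NH24.GD.A

/-!
# Multiple zeta values of weight `k` whose arguments are near multiples of `k / b`: the core inequality
-/

set_option autoImplicit false

namespace Pool.Agent.NH24.GD

open Finset Filter

/-- the size of a tuple -/
def sz (al : ℕ → ℕ) (n w : List ℕ) : ℕ := pw n (w.map al)

/-- the data; `al x` is the multiple that belongs to the argument `x` -/
structure Data (K C b : ℕ) (al : ℕ → ℕ) (S : Finset (List ℕ)) (c : List ℕ → ℤ) (H : ℝ) : Prop where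
  hS : ∀ w ∈ S, ∀ x ∈ w, 1 ≤ al x ∧ al x * K + 2 ≤ x ∧ x ≤ al x * C
  hsum : ∀ w ∈ S, (w.map al).sum = b
  hc : ∀ w ∈ S, |(c w : ℝ)| ≤ H
  hH : 0 ≤ H

lemma one_le_pw : ∀ (n w : List ℕ), (∀ x ∈ n, 1 ≤ x) → 1 ≤ pw n w
  | [], w, _ => by simp
  | _ :: _, [], _ => by simp
  | j :: n, x :: w, h => by
    rw [pw_cons]
    exact Nat.mul_pos (Nat.pow_pos (h j List.mem_cons_self))
      (one_le_pw n w fun y hy => h y (List.mem_cons_of_mem _ hy))

lemma le_sz (al : ℕ → ℕ) : ∀ (n w : List ℕ), n.length = w.length → (∀ x ∈ n, 1 ≤ x) →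
    (∀ x ∈ w, 1 ≤ al x) → ∀ y ∈ n, y ≤ sz al n w
  | [], _, _, _, _ => by simp
  | _ :: _, [], h, _, _ => by simp at h
  | j :: n, x :: w, h, hn, hw => by
    intro y hy
    have h1 : 1 ≤ sz al n w := one_le_pw _ _ fun y hy => hn y (List.mem_cons_of_mem _ hy)
    have hj : 1 ≤ j := hn j List.mem_cons_self
    have hx : 1 ≤ al x := hw x List.mem_cons_self
    have h2 : sz al (j :: n) (x :: w) = j ^ al x * sz al n w := rfl
    rw [h2]
    rcases List.mem_cons.1 hy with rfl | hy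
    · calc y = y ^ 1 * 1 := by ring
        _ ≤ y ^ al x * sz al n w := Nat.mul_le_mul (Nat.pow_le_pow_right hj hx) h1
    · have h3 := le_sz al n w (by simpa using h) (fun y hy => hn y (List.mem_cons_of_mem _ hy))
        (fun y hy => hw y (List.mem_cons_of_mem _ hy)) y hy
      calc y = 1 * y := by ring
        _ ≤ j ^ al x * sz al n w := Nat.mul_le_mul (Nat.one_le_pow _ _ hj) h3

lemma size_le (al : ℕ → ℕ) (K : ℕ) : ∀ (n w : List ℕ), n.length = w.length → (∀ x ∈ n, 1 ≤ x) →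
    (∀ x ∈ w, al x * K + 2 ≤ x) → sz al n w ^ K * n.prod ^ 2 ≤ pw n w
  | [], _, _, _, _ => by simp [sz]
  | _ :: _, [], h, _, _ => by simp at h
  | j :: n, x :: w, h, hn, hw => by
    have hj : 1 ≤ j := hn j List.mem_cons_self
    have hx := hw x List.mem_cons_self
    have h2 : sz al (j :: n) (x :: w) = j ^ al x * sz al n w := rfl
    have h3 := size_le al K n w (by simpa using h) (fun y hy => hn y (List.mem_cons_of_mem _ hy))
      (fun y hy => hw y (List.mem_cons_of_mem _ hy))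
    rw [h2, pw_cons, List.prod_cons]
    calc (j ^ al x * sz al n w) ^ K * (j * n.prod) ^ 2 =
          j ^ (al x * K + 2) * (sz al n w ^ K * n.prod ^ 2) := by
          rw [mul_pow, mul_pow, ← pow_mul, pow_add]
          ring
      _ ≤ j ^ x * pw n w := Nat.mul_le_mul (Nat.pow_le_pow_right hj hx) h3

lemma dvd_size (al : ℕ → ℕ) (C : ℕ) : ∀ (n w : List ℕ), n.length = w.length →
    (∀ x ∈ w, x ≤ al x * C) → pw n w ∣ sz al n w ^ C
  | [], _, _, _ => by simp
  | _ :: _, [], h, _ => by simp at h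
  | j :: n, x :: w, h, hw => by
    have hx := hw x List.mem_cons_self
    have h2 : sz al (j :: n) (x :: w) = j ^ al x * sz al n w := rfl
    rw [h2, pw_cons, mul_pow, ← pow_mul]
    exact Nat.mul_dvd_mul (pow_dvd_pow _ hx) (dvd_size al C n w (by simpa using h)
      (fun y hy => hw y (List.mem_cons_of_mem _ hy)))

section

variable {K C b : ℕ} {al : ℕ → ℕ} {S : Finset (List ℕ)} {c : List ℕ → ℤ} {H : ℝ}

lemma Data.len (h : Data K C b al S c H) {w : List ℕ} (hw : w ∈ S) : w.length ≤ b := by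
  rw [← h.hsum w hw]
  have h1 : ∀ x ∈ w, 1 ≤ al x := fun x hx => (h.hS w hw x hx).1
  clear hw
  induction w with
  | nil => simp
  | cons x w ih =>
    have h2 := h1 x List.mem_cons_self
    have h3 := ih (fun y hy => h1 y (List.mem_cons_of_mem _ hy))
    rw [List.map_cons, List.sum_cons, List.length_cons]
    omega

/-- the sum over the tuples of size `y` -/
noncomputable def AA (al : ℕ → ℕ) (S : Finset (List ℕ)) (c : List ℕ → ℤ) (B y : ℕ) : ℝ :=
  ∑ w ∈ S, ∑ n ∈ (dec w.length (B + 1)).filter (fun n => sz al n w = y), (c w : ℝ) / (pw n w : ℝ)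

/-- the sum over the tuples of size at most `x` -/
noncomputable def G1 (al : ℕ → ℕ) (S : Finset (List ℕ)) (c : List ℕ → ℤ) (M x : ℕ) : ℝ :=
  ∑ w ∈ S, ∑ n ∈ (dec w.length (M + 1)).filter (fun n => sz al n w ≤ x), (c w : ℝ) / (pw n w : ℝ)

/-- the sum over the tuples of size larger than `x` -/
noncomputable def G2 (al : ℕ → ℕ) (S : Finset (List ℕ)) (c : List ℕ → ℤ) (M x : ℕ) : ℝ :=
  ∑ w ∈ S, ∑ n ∈ (dec w.length (M + 1)).filter (fun n => ¬ sz al n w ≤ x), (c w : ℝ) / (pw n w : ℝ)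

lemma split (S : Finset (List ℕ)) (c : List ℕ → ℤ) (M x : ℕ) :
    ∑ w ∈ S, (c w : ℝ) * trunc w (M + 1) = G1 al S c M x + G2 al S c M x := by
  unfold G1 G2
  rw [← sum_add_distrib]
  refine sum_congr rfl fun w _ => ?_
  rw [sum_filter_add_sum_filter_not, trunc_eq, mul_sum]
  exact sum_congr rfl fun n _ => by rw [mul_one_div]

lemma AA_int (h : Data K C b al S c H) (B y : ℕ) : ∃ z : ℤ, AA al S c B y * (y : ℝ) ^ C = z := by
  have h1 : ∀ w ∈ S, ∀ n ∈ (dec w.length (B + 1)).filter (fun n => sz al n w = y), ∃ z : ℤ,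
      (c w : ℝ) / (pw n w : ℝ) * (y : ℝ) ^ C = z := by
    intro w hw n hn
    rw [mem_filter, mem_dec] at hn
    obtain ⟨⟨h2, h3, h4⟩, h5⟩ := hn
    obtain ⟨q, hq⟩ := dvd_size al C n w h2 (fun x hx => (h.hS w hw x hx).2.2)
    have h6 : (0 : ℝ) < pw n w := by exact_mod_cast one_le_pw n w h4
    refine ⟨c w * q, ?_⟩
    rw [← h5]
    have h7 : ((sz al n w : ℕ) : ℝ) ^ C = (pw n w : ℝ) * q := by exact_mod_cast hq
    rw [h7]
    push_cast
    field_simp
  choose! z hz using h1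
  refine ⟨∑ w ∈ S, ∑ n ∈ (dec w.length (B + 1)).filter (fun n => sz al n w = y), z w n, ?_⟩
  unfold AA
  rw [sum_mul]
  push_cast
  refine sum_congr rfl fun w hw => ?_
  rw [sum_mul]
  exact sum_congr rfl fun n hn => hz w hw n hn

lemma AA_low (h : Data K C b al S c H) {B y : ℕ} (hy : 1 ≤ y) (hA : AA al S c B y ≠ 0) :
    1 / (y : ℝ) ^ C ≤ |AA al S c B y| := by
  obtain ⟨z, hz⟩ := AA_int h B y
  have hx0 : (0 : ℝ) < (y : ℝ) ^ C := by positivity
  have hz0 : z ≠ 0 := by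
    rintro rfl
    rw [Int.cast_zero, mul_eq_zero] at hz
    exact hz.elim hA hx0.ne'
  have h1 : (1 : ℝ) ≤ |(z : ℝ)| := by
    rw [← Int.cast_abs]
    exact_mod_cast Int.one_le_abs hz0
  rw [← hz, abs_mul, abs_of_pos hx0] at h1
  rw [div_le_iff₀ hx0]
  exact h1

lemma G2_le (h : Data K C b al S c H) (M x : ℕ) :
    |G2 al S c M x| ≤ S.card * 2 ^ b * H / ((x : ℝ) + 1) ^ K := by
  have hH := h.hH
  unfold G2
  refine (abs_sum_le_sum_abs _ _).trans ?_
  calc ∑ w ∈ S, |∑ n ∈ (dec w.length (M + 1)).filter (fun n => ¬ sz al n w ≤ x), (c w : ℝ) / (pw n w : ℝ)|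
      ≤ ∑ w ∈ S, 2 ^ b * (H / ((x : ℝ) + 1) ^ K) := by
        refine sum_le_sum fun w hw => ?_
        refine (abs_sum_le_sum_abs _ _).trans ?_
        calc ∑ n ∈ (dec w.length (M + 1)).filter (fun n => ¬ sz al n w ≤ x), |(c w : ℝ) / (pw n w : ℝ)|
            ≤ ∑ n ∈ (dec w.length (M + 1)).filter (fun n => ¬ sz al n w ≤ x),
                H / ((x : ℝ) + 1) ^ K * (1 / ((n.prod : ℕ) : ℝ) ^ 2) := by
              refine sum_le_sum fun n hn => ?_
              rw [mem_filter, mem_dec] at hn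
              obtain ⟨⟨h2, h3, h4⟩, h5⟩ := hn
              have h6 : (0 : ℝ) < pw n w := by exact_mod_cast one_le_pw n w h4
              have h7 := size_le al K n w h2 h4 (fun x hx => (h.hS w hw x hx).2.1)
              have h8 : 1 ≤ n.prod := List.prod_pos h4
              have h9 : (0 : ℝ) < (n.prod : ℕ) := by exact_mod_cast h8
              have h10 : ((x : ℝ) + 1) ^ K * ((n.prod : ℕ) : ℝ) ^ 2 ≤ (pw n w : ℝ) := by
                calc ((x : ℝ) + 1) ^ K * ((n.prod : ℕ) : ℝ) ^ 2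
                    ≤ ((sz al n w : ℕ) : ℝ) ^ K * ((n.prod : ℕ) : ℝ) ^ 2 := by
                      refine mul_le_mul_of_nonneg_right ?_ (by positivity)
                      refine pow_le_pow_left₀ (by positivity) ?_ K
                      have : x + 1 ≤ sz al n w := by omega
                      exact_mod_cast this
                  _ ≤ (pw n w : ℝ) := by exact_mod_cast h7
              rw [abs_div, abs_of_pos h6, div_mul_div_comm, mul_one]
              exact div_le_div₀ hH (h.hc w hw) (by positivity) h10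
          _ ≤ ∑ n ∈ dec w.length (M + 1), H / ((x : ℝ) + 1) ^ K * (1 / ((n.prod : ℕ) : ℝ) ^ 2) :=
              sum_le_sum_of_subset_of_nonneg (filter_subset _ _) fun _ _ _ => by positivity
          _ = H / ((x : ℝ) + 1) ^ K * ∑ n ∈ dec w.length (M + 1), 1 / ((n.prod : ℕ) : ℝ) ^ 2 := by
              rw [mul_sum]
          _ ≤ H / ((x : ℝ) + 1) ^ K * 2 ^ w.length :=
              mul_le_mul_of_nonneg_left (sum_prod_le _ _) (by positivity)
          _ ≤ H / ((x : ℝ) + 1) ^ K * 2 ^ b :=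
              mul_le_mul_of_nonneg_left (pow_le_pow_right₀ (by norm_num) (h.len hw)) (by positivity)
          _ = 2 ^ b * (H / ((x : ℝ) + 1) ^ K) := by ring
    _ = S.card * 2 ^ b * H / ((x : ℝ) + 1) ^ K := by
        rw [sum_const, nsmul_eq_mul]
        ring

lemma G1_eq (h : Data K C b al S c H) {M B x : ℕ} (hM : x ≤ M) (hB : x ≤ B) :
    G1 al S c M x = ∑ y ∈ Icc 1 x, AA al S c B y := by
  unfold G1 AA
  rw [sum_comm]
  refine sum_congr rfl fun w hw => ?_
  have h1 : ∀ N, x ≤ N → ∀ n, (n ∈ (dec w.length (N + 1)).filter (fun n => sz al n w ≤ x)) ↔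
      (n.length = w.length ∧ n.Pairwise (· > ·) ∧ (∀ y ∈ n, 1 ≤ y) ∧ sz al n w ≤ x) := by
    intro N hN n
    rw [mem_filter, mem_dec, List.pairwise_cons]
    constructor
    · rintro ⟨⟨h2, h3, h4⟩, h5⟩
      exact ⟨h2, h3.2, h4, h5⟩
    · rintro ⟨h2, h3, h4, h5⟩
      refine ⟨⟨h2, ⟨fun y hy => ?_, h3⟩, h4⟩, h5⟩
      have := le_sz al n w h2 h4 (fun x hx => (h.hS w hw x hx).1) y hy
      omega
  have h2 : (dec w.length (M + 1)).filter (fun n => sz al n w ≤ x) =
      (dec w.length (B + 1)).filter (fun n => sz al n w ≤ x) := by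
    ext n
    rw [h1 M hM, h1 B hB]
  rw [h2]
  have h3 : ∀ n ∈ (dec w.length (B + 1)).filter (fun n => sz al n w ≤ x), sz al n w ∈ Icc 1 x := by
    intro n hn
    rw [h1 B hB] at hn
    rw [mem_Icc]
    exact ⟨one_le_pw _ _ hn.2.2.1, hn.2.2.2⟩
  rw [← Finset.sum_fiberwise_of_maps_to h3]
  refine sum_congr rfl fun y hy => ?_
  rw [mem_Icc] at hy
  refine sum_congr ?_ fun _ _ => rfl
  ext n
  simp only [mem_filter]
  constructor
  · rintro ⟨⟨h4, _⟩, h5⟩
    exact ⟨h4, h5⟩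
  · rintro ⟨h4, h5⟩
    exact ⟨⟨h4, by omega⟩, h5⟩

/-- the combination -/
noncomputable def FF (S : Finset (List ℕ)) (c : List ℕ → ℤ) : ℝ := ∑ w ∈ S, (c w : ℝ) * mzv w

lemma main_low (h : Data K C b al S c H) {x B : ℕ} (hx1 : 1 ≤ x) (hx : x ≤ B)
    (hA0 : ∀ y, 1 ≤ y → y < x → AA al S c B y = 0) (hA : AA al S c B x ≠ 0)
    (hnum : 2 * (S.card * 2 ^ b * H * (x : ℝ) ^ C) ≤ ((x : ℝ) + 1) ^ K) :
    1 / (2 * (x : ℝ) ^ C) ≤ |FF S c| := by
  have hH := h.hH
  have hx0 : (0 : ℝ) < x := by exact_mod_cast hx1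
  have h1 : Tendsto (fun M : ℕ => |∑ w ∈ S, (c w : ℝ) * trunc w (M + 1)|) atTop (nhds |FF S c|) := by
    refine Tendsto.abs ?_
    refine tendsto_finsetSum _ fun w hw => ?_
    refine Tendsto.const_mul _ (tendsto_trunc w fun x hx => ?_)
    have := (h.hS w hw x hx).2.1
    omega
  refine ge_of_tendsto h1 ?_
  filter_upwards [eventually_ge_atTop x] with M hM
  rw [split (al := al) S c M x, G1_eq h hM hx]
  have h2 : ∑ y ∈ Icc 1 x, AA al S c B y = AA al S c B x := by
    rw [← Finset.sum_subset (Finset.singleton_subset_iff.2 (mem_Icc.2 ⟨hx1, le_rfl⟩)), sum_singleton]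
    intro y hy hyx
    rw [mem_Icc] at hy
    rw [mem_singleton] at hyx
    exact hA0 y hy.1 (by omega)
  rw [h2]
  have h3 := G2_le h M x
  have h4 := AA_low h hx1 hA
  have h5 : S.card * 2 ^ b * H / ((x : ℝ) + 1) ^ K ≤ 1 / (2 * (x : ℝ) ^ C) := by
    rw [div_le_div_iff₀ (by positivity) (by positivity)]
    linarith
  have h6 : 1 / (x : ℝ) ^ C = 1 / (2 * (x : ℝ) ^ C) + 1 / (2 * (x : ℝ) ^ C) := by
    field_simp
    norm_num
  have h7 := abs_sub_abs_le_abs_sub (AA al S c B x) (-G2 al S c M x)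
  rw [sub_neg_eq_add, abs_neg] at h7
  linarith

end

end Pool.Agent.NH24.GD
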