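import Pool.Agent.NH24.GD.B

/-!
# Multiple zeta values of weight `k` whose arguments are near multiples of `k / b`: tuples of primes
-/

set_option autoImplicit false

namespace Pool.Agent.NH24.GD

open Finset Filter

lemma pw_append_one : ∀ (n w : List ℕ), pw (n ++ [1]) w = pw n w
  | [], w => by
    cases w with
    | nil => simp
    | cons x w => simp
  | _ :: _, [] => by simp
  | j :: n, x :: w => by
    rw [List.cons_append, pw_cons, pw_cons, pw_append_one n w]

lemma pw_append_single (q : ℕ) : ∀ (n w : List ℕ), n.length < w.length →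
    pw (n ++ [q]) w = pw n w * q ^ (w.getD n.length 0)
  | [], w, h => by
    cases w with
    | nil => simp at h
    | cons x w => simp
  | j :: n, w, h => by
    cases w with
    | nil => simp at h
    | cons x w =>
      rw [List.cons_append, pw_cons, pw_cons, pw_append_single q n w (by simpa using h)]
      simp [mul_assoc]

lemma prime_dvd_pw {q : ℕ} (hq : q.Prime) : ∀ (n a : List ℕ), (∀ x ∈ n, x.Prime) → q ∣ pw n a → q ∈ n
  | [], a, _, h => by
    rw [pw_nil] at h
    exact absurd (Nat.dvd_one.1 h) hq.ne_one
  | _ :: _, [], _, h => by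
    rw [pw_nil'] at h
    exact absurd (Nat.dvd_one.1 h) hq.ne_one
  | x :: n, e :: a, hn, h => by
    rw [pw_cons] at h
    rcases (Nat.Prime.dvd_mul hq).1 h with h1 | h1
    · have h2 := hq.dvd_of_dvd_pow h1
      have h3 := (Nat.prime_dvd_prime_iff_eq hq (hn x List.mem_cons_self)).1 h2
      rw [h3]
      exact List.mem_cons_self
    · exact List.mem_cons_of_mem _ (prime_dvd_pw hq n a (fun y hy => hn y (List.mem_cons_of_mem _ hy)) h1)

lemma pw_one_of : ∀ (n a : List ℕ), n.length = a.length → (∀ x ∈ n, x.Prime) → (∀ x ∈ a, 1 ≤ x) →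
    pw n a = 1 → n = [] ∧ a = []
  | [], a, h, _, _, _ => ⟨rfl, List.length_eq_zero_iff.1 (by simpa using h.symm)⟩
  | x :: n, a, h, hn, ha, h1 => by
    cases a with
    | nil => simp at h
    | cons e a =>
      exfalso
      rw [pw_cons] at h1
      have h2 := Nat.eq_one_of_mul_eq_one_right h1
      have h3 := ha e List.mem_cons_self
      have h4 := (hn x List.mem_cons_self).two_le
      rw [Nat.pow_eq_one] at h2
      omega

lemma head_le {x y e : ℕ} {ps a ns a' : List ℕ} (hx : x.Prime) (he : 1 ≤ e)
    (hns : (y :: ns).Pairwise (· > ·)) (hp' : ∀ z ∈ y :: ns, z.Prime)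
    (h : pw (x :: ps) (e :: a) = pw (y :: ns) a') : x ≤ y := by
  have h1 : x ∣ pw (x :: ps) (e :: a) := by
    rw [pw_cons]
    exact (dvd_pow_self x (by omega)).trans (dvd_mul_right _ _)
  rw [h] at h1
  have h2 := prime_dvd_pw hx _ _ hp' h1
  rcases List.mem_cons.1 h2 with h3 | h3
  · exact h3.le
  · exact ((List.pairwise_cons.1 hns).1 x h3).le

lemma not_dvd {x : ℕ} {ps a : List ℕ} (hx : x.Prime) (hps : (x :: ps).Pairwise (· > ·))
    (hp : ∀ z ∈ ps, z.Prime) : ¬ x ∣ pw ps a := by
  intro h
  have h1 := prime_dvd_pw hx _ _ hp h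
  have h2 := (List.pairwise_cons.1 hps).1 x h1
  exact lt_irrefl _ h2

lemma uniq_primes : ∀ (ps a ns a' : List ℕ), ps.length = a.length → ns.length = a'.length →
    ps.Pairwise (· > ·) → ns.Pairwise (· > ·) → (∀ x ∈ ps, x.Prime) → (∀ x ∈ ns, x.Prime) →
    (∀ x ∈ a, 1 ≤ x) → (∀ x ∈ a', 1 ≤ x) → pw ps a = pw ns a' → ps = ns ∧ a = a' := by
  intro ps
  induction ps with
  | nil =>
    intro a ns a' h1 h2 _ _ _ hp' _ ha' h
    rw [pw_nil] at h
    obtain ⟨h3, h4⟩ := pw_one_of ns a' h2 hp' ha' h.symm
    rw [h3, h4]
    exact ⟨rfl, List.length_eq_zero_iff.1 (by simpa using h1.symm)⟩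
  | cons x ps ih =>
    intro a ns a' h1 h2 hs hs' hp hp' ha ha' h
    cases a with
    | nil => simp at h1
    | cons e a =>
      cases ns with
      | nil =>
        rw [pw_nil] at h
        have := pw_one_of (x :: ps) (e :: a) h1 hp ha h
        exact absurd this.1 (by simp)
      | cons y ns =>
        cases a' with
        | nil => simp at h2
        | cons e' a' =>
          have hx := hp x List.mem_cons_self
          have hy := hp' y List.mem_cons_self
          have he := ha e List.mem_cons_self
          have he' := ha' e' List.mem_cons_self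
          have hxy : x = y := le_antisymm (head_le hx he hs' hp' h) (head_le hy he' hs hp h.symm)
          subst hxy
          have hps : ∀ z ∈ ps, z.Prime := fun z hz => hp z (List.mem_cons_of_mem _ hz)
          have hns : ∀ z ∈ ns, z.Prime := fun z hz => hp' z (List.mem_cons_of_mem _ hz)
          have hd1 : ¬ x ∣ pw ps a := not_dvd hx hs hps
          have hd2 : ¬ x ∣ pw ns a' := not_dvd hx hs' hns
          have hpos1 : pw ps a ≠ 0 := by
            have := one_le_pw ps a fun z hz => (hps z hz).one_le
            omega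
          have hpos2 : pw ns a' ≠ 0 := by
            have := one_le_pw ns a' fun z hz => (hns z hz).one_le
            omega
          rw [pw_cons, pw_cons] at h
          have hee : e = e' := by
            have h3 := congrArg (fun N => N.factorization x) h
            rw [Nat.factorization_mul (pow_ne_zero _ hx.ne_zero) hpos1,
              Nat.factorization_mul (pow_ne_zero _ hx.ne_zero) hpos2, Finsupp.add_apply,
              Finsupp.add_apply, Nat.factorization_eq_zero_of_not_dvd hd1,
              Nat.factorization_eq_zero_of_not_dvd hd2, hx.factorization_pow, hx.factorization_pow,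
              Finsupp.single_eq_same, Finsupp.single_eq_same] at h3
            simpa using h3
          subst hee
          have h3 : pw ps a = pw ns a' := Nat.eq_of_mul_eq_mul_left (Nat.pow_pos hx.pos) h
          obtain ⟨h4, h5⟩ := ih a ns a' (by simpa using h1) (by simpa using h2)
            (List.pairwise_cons.1 hs).2 (List.pairwise_cons.1 hs').2 hps hns
            (fun z hz => ha z (List.mem_cons_of_mem _ hz)) (fun z hz => ha' z (List.mem_cons_of_mem _ hz)) h3
          rw [h4, h5]
          exact ⟨rfl, rfl⟩

/-- the number of prime factors -/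
lemma Om_primes : ∀ (n a : List ℕ), n.length = a.length → (∀ x ∈ n, x.Prime) →
    ArithmeticFunction.cardFactors (pw n a) = a.sum
  | [], a, h, _ => by
    have : a = [] := List.length_eq_zero_iff.1 (by simpa using h.symm)
    subst this
    simp
  | x :: n, a, h, hn => by
    cases a with
    | nil => simp at h
    | cons e a =>
      have hx := hn x List.mem_cons_self
      have hpos : pw n a ≠ 0 := by
        have := one_le_pw n a fun z hz => (hn z (List.mem_cons_of_mem _ hz)).one_le
        omega
      rw [pw_cons, ArithmeticFunction.cardFactors_mul (pow_ne_zero _ hx.ne_zero) hpos,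
        ArithmeticFunction.cardFactors_pow, ArithmeticFunction.cardFactors_apply_prime hx,
        Om_primes n a (by simpa using h) (fun z hz => hn z (List.mem_cons_of_mem _ hz)),
        List.sum_cons, mul_one]

lemma Om_pos {x : ℕ} (hx : 2 ≤ x) : 1 ≤ ArithmeticFunction.cardFactors x := by
  rw [Nat.one_le_iff_ne_zero, Ne, ArithmeticFunction.cardFactors_eq_zero_iff_eq_zero_or_one]
  omega

lemma Om_ge : ∀ (n a : List ℕ), n.length = a.length → (∀ x ∈ n, 2 ≤ x) → (∀ x ∈ a, 1 ≤ x) →
    a.sum ≤ ArithmeticFunction.cardFactors (pw n a) ∧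
      (ArithmeticFunction.cardFactors (pw n a) ≤ a.sum → ∀ x ∈ n, x.Prime)
  | [], a, h, _, _ => by
    have : a = [] := List.length_eq_zero_iff.1 (by simpa using h.symm)
    subst this
    simp
  | x :: n, a, h, hn, ha => by
    cases a with
    | nil => simp at h
    | cons e a =>
      have hx := hn x List.mem_cons_self
      have he := ha e List.mem_cons_self
      have hpos : pw n a ≠ 0 := by
        have := one_le_pw n a fun z hz => by
          have := hn z (List.mem_cons_of_mem _ hz)
          omega
        omega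
      obtain ⟨h1, h2⟩ := Om_ge n a (by simpa using h) (fun z hz => hn z (List.mem_cons_of_mem _ hz))
        (fun z hz => ha z (List.mem_cons_of_mem _ hz))
      have h3 := Om_pos hx
      have h4 : e ≤ e * ArithmeticFunction.cardFactors x := Nat.le_mul_of_pos_right e h3
      rw [pw_cons, ArithmeticFunction.cardFactors_mul (pow_ne_zero _ (by omega)) hpos,
        ArithmeticFunction.cardFactors_pow, List.sum_cons]
      refine ⟨by omega, fun h5 y hy => ?_⟩
      rcases List.mem_cons.1 hy with rfl | hy
      · rw [← ArithmeticFunction.cardFactors_eq_one_iff_prime]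
        have h6 : e * ArithmeticFunction.cardFactors y = e * 1 := by omega
        exact Nat.eq_of_mul_eq_mul_left (by omega) h6
      · exact h2 (by omega) y hy

/-- a tuple of primes and `1` is alone in its class -/
lemma uniq {ps a0 n0 a0' : List ℕ} {z y z' : ℕ} (h1 : ps.length = a0.length) (h2 : n0.length = a0'.length)
    (hs : ps.Pairwise (· > ·)) (hs' : (n0 ++ [y]).Pairwise (· > ·)) (hp : ∀ x ∈ ps, x.Prime)
    (hy : 1 ≤ y) (ha : ∀ x ∈ a0, 1 ≤ x) (ha' : ∀ x ∈ a0', 1 ≤ x) (hz' : 1 ≤ z') (hzz : z' ≤ z)
    (hsum : a0.sum + z = a0'.sum + z') (h : pw n0 a0' * y ^ z' = pw ps a0) :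
    n0 = ps ∧ y = 1 ∧ a0' = a0 ∧ z' = z := by
  have hn2 : ∀ x ∈ n0, 2 ≤ x := by
    intro x hx
    have := (List.pairwise_append.1 hs').2.2 x hx y (by simp)
    omega
  obtain ⟨h3, h4⟩ := Om_ge n0 a0' h2 hn2 ha'
  have hpos : pw n0 a0' ≠ 0 := by
    have := one_le_pw n0 a0' fun z hz => by
      have := hn2 z hz
      omega
    omega
  have h5 := Om_primes ps a0 h1 hp
  rw [← h, ArithmeticFunction.cardFactors_mul hpos (pow_ne_zero _ (by omega)),
    ArithmeticFunction.cardFactors_pow] at h5
  have h6 : z' * ArithmeticFunction.cardFactors y = 0 := by omega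
  have h7 : y = 1 := by
    rcases Nat.mul_eq_zero.1 h6 with h8 | h8
    · omega
    · rw [ArithmeticFunction.cardFactors_eq_zero_iff_eq_zero_or_one] at h8
      omega
  have h8 := h4 (by omega)
  rw [h7, one_pow, mul_one] at h
  obtain ⟨h9, h10⟩ := uniq_primes n0 a0' ps a0 h2 h1 (List.pairwise_append.1 hs').1 hs h8 hp ha' ha h
  exact ⟨h9, h7, h10, by omega⟩

end Pool.Agent.NH24.GD
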