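import Pool.Agent.NH24.GD.C

/-!
# Multiple zeta values of weight `k` whose arguments are near multiples of `k / b`: elimination
-/

set_option autoImplicit false

namespace Pool.Agent.NH24.GD

open Finset Filter

lemma poly_zero {E : Finset ℕ} {B : ℕ → ℝ} {p0 W : ℕ} (hE : ∀ e ∈ E, p0 ≤ e ∧ e ≤ p0 + W)
    {P : Finset ℕ} (hP : W < P.card) (hP1 : ∀ l ∈ P, 1 ≤ l)
    (h : ∀ l ∈ P, ∑ e ∈ E, B e / (l : ℝ) ^ e = 0) : ∀ e ∈ E, B e = 0 := by
  classical
  by_contra hcon
  push Not at hcon
  obtain ⟨q, hq, hq0⟩ := hcon
  set Q : Polynomial ℝ := ∑ p ∈ E, Polynomial.monomial (p0 + W - p) (B p) with hQ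
  have hinj : ∀ p ∈ E, p0 + W - p = p0 + W - q → p = q := by
    intro p hp h
    have h1 := hE p hp
    have h2 := hE q hq
    omega
  have hQ0 : Q ≠ 0 := by
    intro h
    have h1 : Q.coeff (p0 + W - q) = B q := by
      rw [hQ, Polynomial.finsetSum_coeff, Finset.sum_eq_single q]
      · rw [Polynomial.coeff_monomial, if_pos rfl]
      · intro p hp hne
        rw [Polynomial.coeff_monomial, if_neg (fun h' => hne (hinj p hp h'))]
      · intro h'
        exact absurd hq h'
    rw [h, Polynomial.coeff_zero] at h1
    exact hq0 h1.symm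
  have hdeg : Q.natDegree ≤ W := by
    refine Polynomial.natDegree_sum_le_of_forall_le _ _ fun p hp => ?_
    refine (Polynomial.natDegree_monomial_le _).trans ?_
    have := hE p hp
    omega
  have hroot : ∀ l ∈ P, Q.eval (l : ℝ) = 0 := by
    intro l hl
    have hl0 : (0 : ℝ) < l := by exact_mod_cast hP1 l hl
    rw [hQ, Polynomial.eval_finsetSum]
    have h2 : ∑ p ∈ E, (Polynomial.monomial (p0 + W - p) (B p)).eval (l : ℝ) =
        (l : ℝ) ^ (p0 + W) * ∑ p ∈ E, B p / (l : ℝ) ^ p := by
      rw [mul_sum]
      refine sum_congr rfl fun p hp => ?_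
      have h3 := hE p hp
      rw [Polynomial.eval_monomial, mul_div_assoc', eq_div_iff (by positivity), mul_assoc, ← pow_add,
        Nat.sub_add_cancel h3.2]
      ring
    rw [h2, h l hl, mul_zero]
  have h1 : P.image (fun l : ℕ => (l : ℝ)) ⊆ Q.roots.toFinset := by
    intro x hx
    rw [mem_image] at hx
    obtain ⟨l, hl, rfl⟩ := hx
    rw [Multiset.mem_toFinset, Polynomial.mem_roots hQ0]
    exact hroot l hl
  have h2 := Finset.card_le_card h1
  rw [Finset.card_image_of_injective _ Nat.cast_injective] at h2
  have h3 := h2.trans ((Multiset.toFinset_card_le _).trans ((Polynomial.card_roots' Q).trans hdeg))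
  omega

lemma elim {ι : Type} {al : ℕ → ℕ} {K C W : ℕ} : ∀ (Ps : List (Finset ℕ)) (T : Finset ι) (c : ι → ℝ)
    (w : ι → List ℕ) (a : List ℕ), Ps.length ≤ a.length → (∀ y ∈ a, y * (C - K) ≤ W) →
    (∀ i ∈ T, (w i).map al = a ∧ ∀ x ∈ w i, al x * K ≤ x ∧ x ≤ al x * C) →
    (∀ P ∈ Ps, W < P.card ∧ ∀ l ∈ P, 1 ≤ l) →
    (∀ ps, List.Forall₂ (fun l P => l ∈ P) ps Ps → ∑ i ∈ T, c i / (pw ps (w i) : ℝ) = 0) →
    ∀ u : List ℕ, u.length = Ps.length →
      ∑ i ∈ T.filter (fun i => (w i).take Ps.length = u), c i = 0 := by
  classical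
  intro Ps
  induction Ps with
  | nil =>
    intro T c w a _ _ _ _ h u hu
    have h1 := h [] List.Forall₂.nil
    simp only [pw_nil, Nat.cast_one, div_one] at h1
    have hu' : u = [] := List.length_eq_zero_iff.1 (by simpa using hu)
    subst hu'
    rw [filter_true_of_mem]
    · exact h1
    · intro i _
      simp
  | cons P Ps ih =>
    intro T c w a hlen hW hT hP h u hu
    cases a with
    | nil => simp at hlen
    | cons a1 a' =>
      cases u with
      | nil => simp at hu
      | cons e u' =>
        have hform : ∀ i ∈ T, w i = (w i).headD 0 :: (w i).tail := by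
          intro i hi
          have h1 := (hT i hi).1
          cases hwi : w i with
          | nil => rw [hwi] at h1; simp at h1
          | cons x w' => simp
        have hhd : ∀ i ∈ T, al ((w i).headD 0) = a1 ∧ (w i).tail.map al = a' ∧
            (w i).headD 0 ∈ w i ∧ ∀ x ∈ (w i).tail, x ∈ w i := by
          intro i hi
          have h1 := (hT i hi).1
          cases hwi : w i with
          | nil => rw [hwi] at h1; simp at h1
          | cons x w' =>
            rw [hwi, List.map_cons] at h1
            obtain ⟨h2, h3⟩ := List.cons.inj h1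
            refine ⟨by simpa using h2, by simpa using h3, by simp, fun y hy => by
              simp only [List.tail_cons] at hy
              exact List.mem_cons_of_mem _ hy⟩
        have hB : ∀ ps', List.Forall₂ (fun l P => l ∈ P) ps' Ps →
            ∀ e ∈ T.image (fun i => (w i).headD 0),
              ∑ i ∈ T.filter (fun i => (w i).headD 0 = e), c i / (pw ps' (w i).tail : ℝ) = 0 := by
          intro ps' hps'
          refine poly_zero (p0 := a1 * K) (W := W) (P := P) (fun e he => ?_)
            (hP P List.mem_cons_self).1 (hP P List.mem_cons_self).2 fun l hl => ?_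
          · rw [mem_image] at he
            obtain ⟨i, hi, rfl⟩ := he
            obtain ⟨h1, -, h2, -⟩ := hhd i hi
            have h3 := (hT i hi).2 _ h2
            rw [h1] at h3
            have h4 := hW a1 List.mem_cons_self
            refine ⟨h3.1, h3.2.trans ?_⟩
            rcases Nat.le_total C K with h5 | h5
            · have := Nat.mul_le_mul_left a1 h5
              omega
            · have h6 : a1 * C = a1 * K + a1 * (C - K) := by
                rw [← Nat.mul_add]
                congr 1
                omega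
              omega
          · have h1 := h (l :: ps') (List.Forall₂.cons hl hps')
            rw [← h1, ← Finset.sum_fiberwise_of_maps_to (g := fun i => (w i).headD 0)
              (t := T.image (fun i => (w i).headD 0)) (fun i hi => mem_image_of_mem _ hi)]
            refine sum_congr rfl fun e _ => ?_
            rw [sum_div]
            refine sum_congr rfl fun i hi => ?_
            rw [mem_filter] at hi
            have h2 := hform i hi.1
            have h3 : pw (l :: ps') (w i) = l ^ e * pw ps' (w i).tail := by
              conv_lhs => rw [h2]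
              rw [pw_cons, hi.2]
            rw [h3]
            push_cast
            rw [div_div, mul_comm]
        have h1 : T.filter (fun i => (w i).take (P :: Ps).length = e :: u') =
            (T.filter (fun i => (w i).headD 0 = e)).filter (fun i => (w i).tail.take Ps.length = u') := by
          rw [filter_filter]
          refine filter_congr fun i hi => ?_
          conv_lhs => rw [hform i hi]
          rw [List.length_cons, List.take_succ_cons, List.cons.injEq]
        rw [h1]
        by_cases he : e ∈ T.image (fun i => (w i).headD 0)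
        · refine ih (T.filter (fun i => (w i).headD 0 = e)) c (fun i => (w i).tail) a'
            (by simpa using hlen) (fun y hy => hW y (List.mem_cons_of_mem _ hy)) (fun i hi => ?_)
            (fun Q hQ => hP Q (List.mem_cons_of_mem _ hQ)) (fun ps' hps' => hB ps' hps' e he) u'
            (by simpa using hu)
          rw [mem_filter] at hi
          obtain ⟨-, h2, -, h3⟩ := hhd i hi.1
          exact ⟨h2, fun x hx => (hT i hi.1).2 x (h3 x hx)⟩
        · rw [filter_false_of_mem (s := T), filter_empty, sum_empty]
          intro i hi hie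
          exact he (mem_image.2 ⟨i, hi, hie⟩)

/-- the sets of primes for the variables -/
def PS (Y : ℕ) : ℕ → List (Finset ℕ)
  | 0 => []
  | r + 1 => ((Ioc (8 ^ r * Y) (8 ^ (r + 1) * Y)).filter Nat.Prime) :: PS Y r

lemma PS_length (Y r : ℕ) : (PS Y r).length = r := by
  induction r with
  | zero => rfl
  | succ r ih => rw [PS, List.length_cons, ih]

lemma PS_mem {Y : ℕ} : ∀ (r : ℕ) (P : Finset ℕ), P ∈ PS Y r →
    ∃ j < r, P = (Ioc (8 ^ j * Y) (8 ^ (j + 1) * Y)).filter Nat.Prime
  | 0, _, h => by simp [PS] at h
  | r + 1, P, h => by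
    rw [PS] at h
    rcases List.mem_cons.1 h with h | h
    · exact ⟨r, by omega, h⟩
    · obtain ⟨j, hj, h1⟩ := PS_mem r P h
      exact ⟨j, by omega, h1⟩

lemma PS_prop {Y : ℕ} (hY : 1 ≤ Y) : ∀ (r : ℕ) (ps : List ℕ), List.Forall₂ (fun l P => l ∈ P) ps (PS Y r) →
    ps.length = r ∧ ps.Pairwise (· > ·) ∧ ∀ x ∈ ps, x.Prime ∧ Y < x ∧ x ≤ 8 ^ r * Y := by
  intro r
  induction r with
  | zero =>
    intro ps h
    rw [PS, List.forall₂_nil_right_iff] at h
    subst h
    simp
  | succ r ih =>
    intro ps h
    rw [PS] at h
    cases h with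
    | cons h1 h2 =>
      rename_i x ps'
      obtain ⟨h3, h4, h5⟩ := ih ps' h2
      rw [mem_filter, mem_Ioc] at h1
      have h8 : 1 ≤ 8 ^ r := Nat.one_le_pow _ _ (by norm_num)
      have h9 : Y ≤ 8 ^ r * Y := Nat.le_mul_of_pos_left Y (by omega)
      have h10 : 8 ^ r * Y ≤ 8 ^ (r + 1) * Y :=
        Nat.mul_le_mul_right Y (Nat.pow_le_pow_right (by norm_num) (by omega))
      refine ⟨by rw [List.length_cons, h3], List.pairwise_cons.2 ⟨fun y hy => ?_, h4⟩, fun y hy => ?_⟩
      · have := (h5 y hy).2.2
        omega
      · rcases List.mem_cons.1 hy with rfl | hy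
        · exact ⟨h1.2, by omega, h1.1.2⟩
        · obtain ⟨h6, h7, h11⟩ := h5 y hy
          exact ⟨h6, h7, by omega⟩

lemma pw_le {Z : ℕ} (hZ : 1 ≤ Z) : ∀ (n a : List ℕ), (∀ x ∈ n, x ≤ Z) → pw n a ≤ Z ^ a.sum
  | [], a, _ => by
    rw [pw_nil]
    exact Nat.one_le_pow _ _ hZ
  | _ :: _, [], _ => by simp
  | x :: n, e :: a, h => by
    rw [pw_cons, List.sum_cons, pow_add]
    exact Nat.mul_le_mul (Nat.pow_le_pow_left (h x List.mem_cons_self) e)
      (pw_le hZ n a fun y hy => h y (List.mem_cons_of_mem _ hy))

lemma pw_append_left : ∀ (n a a' : List ℕ), n.length ≤ a.length → pw n (a ++ a') = pw n a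
  | [], _, _, _ => by simp
  | _ :: _, [], _, h => by simp at h
  | x :: n, e :: a, a', h => by
    rw [List.cons_append, pw_cons, pw_cons, pw_append_left n a a' (by simpa using h)]

lemma pw_append : ∀ (n a n' a' : List ℕ), n.length = a.length → pw (n ++ n') (a ++ a') = pw n a * pw n' a'
  | [], a, n', a', h => by
    have : a = [] := List.length_eq_zero_iff.1 (by simpa using h.symm)
    subst this
    simp
  | _ :: _, [], _, _, h => by simp at h
  | x :: n, e :: a, n', a', h => by
    rw [List.cons_append, List.cons_append, pw_cons, pw_cons, pw_append n a n' a' (by simpa using h)]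
    ring

end Pool.Agent.NH24.GD
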