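import Pool.Agent.NH24.GD.D

/-!
# Multiple zeta values of weight `k` whose arguments are near multiples of `k / b`: the explicit theorem
-/

set_option autoImplicit false

namespace Pool.Agent.NH24.GD

open Finset Filter

section

variable {K C b : ℕ} {al : ℕ → ℕ} {S : Finset (List ℕ)} {c : List ℕ → ℤ} {H : ℝ}

/-- the class of a tuple of primes -/
lemma class_sum (h : Data K C b al S c H) (hb : 1 ≤ b) {a0 : List ℕ} {z : ℕ} (ha0 : ∀ x ∈ a0, 1 ≤ x)
    (hsum : a0.sum + z = b)
    (hmax : ∀ w ∈ S, c w ≠ 0 → ∀ a0' z', w.map al = a0' ++ [z'] → z' ≤ z)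
    {ps : List ℕ} (hlen : ps.length = a0.length) (hp : ∀ x ∈ ps, x.Prime) (hs : ps.Pairwise (· > ·))
    {B : ℕ} (hB : pw ps a0 ≤ B) :
    AA al S c B (pw ps a0) =
      ∑ w ∈ S.filter (fun w => w.map al = a0 ++ [z]), (c w : ℝ) / (pw ps w : ℝ) := by
  classical
  unfold AA
  rw [sum_filter]
  refine sum_congr rfl fun w hw => ?_
  by_cases hcw : c w = 0
  · rw [hcw]
    simp
  have hne : w.map al ≠ [] := by
    intro h1
    have h2 := h.hsum w hw
    rw [h1, List.sum_nil] at h2
    omega
  obtain ⟨a0', z', hwa⟩ : ∃ a0' z', w.map al = a0' ++ [z'] :=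
    ⟨_, _, (List.dropLast_append_getLast hne).symm⟩
  have hal : ∀ x ∈ w.map al, 1 ≤ x := by
    intro x hx
    rw [List.mem_map] at hx
    obtain ⟨y, hy, rfl⟩ := hx
    exact (h.hS w hw y hy).1
  have ha0' : ∀ x ∈ a0', 1 ≤ x := fun x hx => hal x (by rw [hwa]; simp [hx])
  have hz' : 1 ≤ z' := hal z' (by rw [hwa]; simp)
  have hsum' : a0'.sum + z' = b := by
    rw [← h.hsum w hw, hwa]
    simp
  have hlw : w.length = a0'.length + 1 := by
    have := congrArg List.length hwa
    simpa using this
  have key : ∀ n ∈ (dec w.length (B + 1)).filter (fun n => sz al n w = pw ps a0),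
      n = ps ++ [1] ∧ w.map al = a0 ++ [z] := by
    intro n hn
    rw [mem_filter, mem_dec] at hn
    obtain ⟨⟨h2, h3, h4⟩, h5⟩ := hn
    have hnn : n ≠ [] := by
      intro h6
      rw [h6] at h2
      simp at h2
      omega
    obtain ⟨n0, y, hny⟩ : ∃ n0 y, n = n0 ++ [y] := ⟨_, _, (List.dropLast_append_getLast hnn).symm⟩
    have h6 : n0.length = a0'.length := by
      have := congrArg List.length hny
      simp at this
      omega
    have h7 : pw n0 a0' * y ^ z' = pw ps a0 := by
      rw [← h5, sz, hwa, hny, pw_append _ _ _ _ h6]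
      simp
    obtain ⟨h8, h9, h10, h11⟩ := uniq hlen h6 hs (by
      rw [← hny]
      exact (List.pairwise_cons.1 h3).2) hp (h4 y (by rw [hny]; simp)) ha0 ha0' hz'
      (hmax w hw hcw a0' z' hwa) (by omega) h7
    rw [hny, h8, h9, hwa, h10, h11]
    exact ⟨rfl, rfl⟩
  split_ifs with hif
  · have h1 : (dec w.length (B + 1)).filter (fun n => sz al n w = pw ps a0) = {ps ++ [1]} := by
      ext n
      rw [mem_singleton]
      constructor
      · intro hn
        exact (key n hn).1
      · rintro rfl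
        have hszp : sz al (ps ++ [1]) w = pw ps a0 := by
          rw [sz, hif, pw_append _ _ _ _ hlen]
          simp
        have hlw2 : (ps ++ [1]).length = w.length := by
          have := congrArg List.length hif
          simp at this
          simp
          omega
        have h1p : ∀ x ∈ ps ++ [1], 1 ≤ x := by
          intro x hx
          rw [List.mem_append] at hx
          rcases hx with hx | hx
          · exact (hp x hx).one_le
          · simp at hx
            omega
        rw [mem_filter, mem_dec]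
        refine ⟨⟨hlw2, ?_, h1p⟩, hszp⟩
        rw [List.pairwise_cons]
        refine ⟨fun y hy => ?_, ?_⟩
        · have h2 := le_sz al (ps ++ [1]) w hlw2 h1p (fun x hx => (h.hS w hw x hx).1) y hy
          omega
        · rw [List.pairwise_append]
          refine ⟨hs, by simp, fun x hx y hy => ?_⟩
          simp at hy
          rw [hy]
          exact (hp x hx).one_lt
    rw [h1, sum_singleton, pw_append_one]
  · rw [sum_eq_zero]
    intro n hn
    exact absurd (key n hn).2 hif

lemma decomp {w a1 : List ℕ} {e z : ℕ} (h : w.map al = a1 ++ [e] ++ [z]) :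
    ∃ w1 p t, w = w1 ++ [p] ++ [t] ∧ w1.length = a1.length ∧ al p = e := by
  rw [List.map_eq_append_iff] at h
  obtain ⟨l1, l2, h1, h2, h3⟩ := h
  rw [List.map_eq_append_iff] at h2
  obtain ⟨l3, l4, h4, h5, h6⟩ := h2
  rw [List.map_eq_singleton_iff] at h3 h6
  obtain ⟨t, h7, -⟩ := h3
  obtain ⟨p, h8, h9⟩ := h6
  refine ⟨l3, p, t, ?_, ?_, h9⟩
  · rw [h1, h4, h7, h8]
  · rw [← h5, List.length_map]

/-- a class whose sum does not vanish -/
theorem exists_class (h : Data K C b al S c H) (hb : 1 ≤ b) {k : ℕ} (hk : ∀ w ∈ S, w.sum = k)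
    (hc : ∃ w ∈ S, c w ≠ 0) {W L Y X : ℕ} (hW : b * (C - K) ≤ W) (hLY : L ≤ Y) (hL : 1 ≤ L)
    (hcard : ∀ j < b, W < ((Ioc (8 ^ j * Y) (8 ^ (j + 1) * Y)).filter Nat.Prime).card)
    (hprime : H < primorial L ∨ W < Nat.primeCounting L) (hX : (8 ^ b * Y) ^ (b - 2) * L ≤ X) :
    ∃ x, 1 ≤ x ∧ x ≤ X ∧ AA al S c X x ≠ 0 := by
  classical
  have hY : 1 ≤ Y := hL.trans hLY
  have hZ : 1 ≤ 8 ^ b * Y := Nat.mul_pos (Nat.pow_pos (by norm_num)) hY
  have hX1 : 1 ≤ X := by
    refine le_trans ?_ hX
    exact Nat.mul_pos (Nat.pow_pos hZ) hL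
  by_contra hcon
  push Not at hcon
  obtain ⟨w0, hw0, hmax0⟩ := Finset.exists_max_image (S.filter fun w => c w ≠ 0)
    (fun w => (w.map al).getLastD 0) (by
      obtain ⟨w, hw, hw0⟩ := hc
      exact ⟨w, mem_filter.2 ⟨hw, hw0⟩⟩)
  rw [mem_filter] at hw0
  obtain ⟨hw0S, hcw0⟩ := hw0
  have hne : w0.map al ≠ [] := by
    intro h1
    have h2 := h.hsum w0 hw0S
    rw [h1, List.sum_nil] at h2
    omega
  obtain ⟨a0, z, hwa⟩ : ∃ a0 z, w0.map al = a0 ++ [z] :=
    ⟨_, _, (List.dropLast_append_getLast hne).symm⟩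
  have hal : ∀ x ∈ w0.map al, 1 ≤ x := by
    intro x hx
    rw [List.mem_map] at hx
    obtain ⟨y, hy, rfl⟩ := hx
    exact (h.hS w0 hw0S y hy).1
  have ha0 : ∀ x ∈ a0, 1 ≤ x := fun x hx => hal x (by rw [hwa]; simp [hx])
  have hz : 1 ≤ z := hal z (by rw [hwa]; simp)
  have hsum : a0.sum + z = b := by
    rw [← h.hsum w0 hw0S, hwa]
    simp
  have hmax : ∀ w ∈ S, c w ≠ 0 → ∀ a0' z', w.map al = a0' ++ [z'] → z' ≤ z := by
    intro w hw hcw a0' z' hwz
    have h1 := hmax0 w (mem_filter.2 ⟨hw, hcw⟩)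
    simp only [hwz, hwa] at h1
    simpa using h1
  -- the equations
  have hcls : ∀ ps : List ℕ, ps.length = a0.length → (∀ x ∈ ps, x.Prime) → ps.Pairwise (· > ·) →
      pw ps a0 ≤ X → ∑ w ∈ S.filter (fun w => w.map al = a0 ++ [z]), (c w : ℝ) / (pw ps w : ℝ) = 0 := by
    intro ps h1 h2 h3 h4
    rw [← class_sum h hb ha0 hsum hmax h1 h2 h3 h4]
    exact hcon _ (one_le_pw _ _ fun x hx => (h2 x hx).one_le) h4
  rcases List.eq_nil_or_concat a0 with h1 | ⟨a1, e, h1⟩
  · -- one argument
    subst h1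
    have h2 := hcls [] rfl (by simp) List.Pairwise.nil (by simpa using hX1)
    have h3 : S.filter (fun w => w.map al = [] ++ [z]) = {w0} := by
      ext w
      rw [mem_filter, mem_singleton]
      constructor
      · rintro ⟨h3, h4⟩
        rw [List.nil_append, List.map_eq_singleton_iff] at h4
        obtain ⟨x, h5, -⟩ := h4
        rw [List.nil_append, List.map_eq_singleton_iff] at hwa
        obtain ⟨x', h6, -⟩ := hwa
        have h7 := hk w h3
        have h8 := hk w0 hw0S
        rw [h5] at h7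
        rw [h6] at h8
        simp only [List.sum_singleton] at h7 h8
        rw [h5, h6, h7, h8]
      · rintro rfl
        exact ⟨hw0S, hwa⟩
    rw [h3, sum_singleton] at h2
    simp only [pw_nil, Nat.cast_one, div_one] at h2
    exact hcw0 (by exact_mod_cast h2)
  · -- at least two arguments
    rw [List.concat_eq_append] at h1
    subst h1
    obtain ⟨r, hr⟩ : ∃ r, r = a1.length := ⟨_, rfl⟩
    have hsum1 : a1.sum + e + z = b := by
      rw [← hsum]
      simp
    have he : 1 ≤ e := ha0 e (by simp)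
    have hrb : r + 2 ≤ b := by
      have h2 := h.len hw0S
      have h3 := congrArg List.length hwa
      simp at h3
      omega
    obtain ⟨T, hT⟩ : ∃ T, T = S.filter (fun w => w.map al = a1 ++ [e] ++ [z]) := ⟨_, rfl⟩
    have hTS : ∀ w ∈ T, w ∈ S ∧ w.map al = a1 ++ [e] ++ [z] := by
      intro w hw
      rw [hT, mem_filter] at hw
      exact hw
    have hTlen : ∀ w ∈ T, w.length = r + 2 := by
      intro w hw
      have h3 := congrArg List.length (hTS w hw).2
      simp at h3
      omega
    have heq : ∀ q : ℕ, q.Prime → q ≤ L → ∀ ps, List.Forall₂ (fun l P => l ∈ P) ps (PS Y r) →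
        ∑ w ∈ T, ((c w : ℝ) / (q : ℝ) ^ (w.getD r 0)) / (pw ps w : ℝ) = 0 := by
      intro q hq hqL ps hps
      obtain ⟨h2, h3, h4⟩ := PS_prop hY r ps hps
      have h5 := hcls (ps ++ [q]) (by simp [h2, hr]) (fun x hx => by
          rw [List.mem_append] at hx
          rcases hx with hx | hx
          · exact (h4 x hx).1
          · simp at hx
            rw [hx]
            exact hq) (by
          rw [List.pairwise_append]
          refine ⟨h3, by simp, fun x hx y hy => ?_⟩
          simp at hy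
          rw [hy]
          have := (h4 x hx).2.1
          omega) (by
          rw [pw_append _ _ _ _ (by rw [h2, hr])]
          have h6 : pw ps a1 ≤ (8 ^ b * Y) ^ a1.sum := pw_le hZ ps a1 fun x hx => by
            refine (h4 x hx).2.2.trans (Nat.mul_le_mul_right Y ?_)
            exact Nat.pow_le_pow_right (by norm_num) (by omega)
          have h7 : pw [q] [e] ≤ (8 ^ b * Y) ^ (e - 1) * L := by
            rw [pw_cons, pw_nil, mul_one]
            obtain ⟨e', rfl⟩ := Nat.exists_eq_add_of_le he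
            rw [Nat.add_sub_cancel_left, add_comm 1 e', pow_succ]
            refine Nat.mul_le_mul (Nat.pow_le_pow_left ?_ _) hqL
            refine (hqL.trans hLY).trans ?_
            exact Nat.le_mul_of_pos_left Y (Nat.pow_pos (by norm_num))
          calc pw ps a1 * pw [q] [e] ≤ (8 ^ b * Y) ^ a1.sum * ((8 ^ b * Y) ^ (e - 1) * L) :=
                Nat.mul_le_mul h6 h7
            _ = (8 ^ b * Y) ^ (a1.sum + (e - 1)) * L := by
                rw [pow_add]
                ring
            _ ≤ (8 ^ b * Y) ^ (b - 2) * L := by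
                refine Nat.mul_le_mul_right L ?_
                exact Nat.pow_le_pow_right hZ (by omega)
            _ ≤ X := hX)
      rw [← hT] at h5
      rw [← h5]
      refine sum_congr rfl fun w hw => ?_
      rw [pw_append_single q ps w (by rw [h2, hTlen w hw]; omega), h2]
      push_cast
      rw [div_div, mul_comm ((q : ℝ) ^ _)]
    -- eliminate the first variables
    obtain ⟨u, hu⟩ : ∃ u, u = w0.take r := ⟨_, rfl⟩
    have hw0T : w0 ∈ T := by
      rw [hT, mem_filter]
      exact ⟨hw0S, hwa⟩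
    have hul : u.length = r := by
      rw [hu, List.length_take, hTlen w0 hw0T]
      omega
    have helim : ∀ q : ℕ, q.Prime → q ≤ L →
        ∑ w ∈ T.filter (fun w => w.take r = u), (c w : ℝ) / (q : ℝ) ^ (w.getD r 0) = 0 := by
      intro q hq hqL
      have h2 := elim (al := al) (K := K) (C := C) (W := W) (PS Y r) T
        (fun w => (c w : ℝ) / (q : ℝ) ^ (w.getD r 0)) (fun w => w) (a1 ++ [e] ++ [z])
        (by rw [PS_length, hr]; simp) (fun y hy => by
          refine le_trans (Nat.mul_le_mul_right _ ?_) hW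
          have h3 := List.single_le_sum (l := a1 ++ [e] ++ [z]) (fun x _ => Nat.zero_le x) y hy
          have h4 : (a1 ++ [e] ++ [z]).sum = b := by
            rw [← hsum1]
            simp
            omega
          omega) (fun w hw => by
          obtain ⟨h3, h4⟩ := hTS w hw
          refine ⟨h4, fun x hx => ?_⟩
          have h5 := (h.hS w h3 x hx).2
          exact ⟨by omega, h5.2⟩) (fun P hP => by
          obtain ⟨j, hj, rfl⟩ := PS_mem r P hP
          refine ⟨hcard j (by omega), fun l hl => ?_⟩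
          rw [mem_filter] at hl
          exact hl.2.one_le) (heq q hq hqL) u (by rw [PS_length, hul])
      rw [PS_length] at h2
      exact h2
    -- the last variable
    obtain ⟨Tu, hTu⟩ : ∃ Tu, Tu = T.filter (fun w => w.take r = u) := ⟨_, rfl⟩
    have hg : ∀ w ∈ Tu, w = u ++ [w.getD r 0] ++ [k - u.sum - w.getD r 0] ∧
        al (w.getD r 0) = e ∧ w.getD r 0 ∈ w := by
      intro w hw
      rw [hTu, mem_filter] at hw
      obtain ⟨hwT, hwu⟩ := hw
      obtain ⟨w1, p, t, h2, h3, h4⟩ := decomp (hTS w hwT).2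
      have h5 : w1.length = r := by rw [h3, hr]
      have h6 : w.take r = w1 := by
        rw [h2, List.append_assoc, List.take_append_of_le_length (by omega), ← h5, List.take_length]
      have h7 : w.getD r 0 = p := by
        rw [h2, List.append_assoc, List.getD_append_right _ _ _ _ (by omega), h5]
        simp
      have h8 := hk w (hTS w hwT).1
      rw [h2] at h8
      simp at h8
      rw [h7, ← hwu, h6]
      refine ⟨?_, h4, by rw [h2]; simp⟩
      have h9 : t = k - w1.sum - p := by omega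
      rw [← h9]
      exact h2
    obtain ⟨cc, hcc⟩ : ∃ cc : ℕ → ℤ, ∀ p, cc p = c (u ++ [p] ++ [k - u.sum - p]) := ⟨_, fun _ => rfl⟩
    obtain ⟨Su, hSu⟩ : ∃ Su, Su = Tu.image (fun w => w.getD r 0) := ⟨_, rfl⟩
    have hinj : ∀ w ∈ Tu, ∀ w' ∈ Tu, w.getD r 0 = w'.getD r 0 → w = w' := by
      intro w hw w' hw' h2
      rw [(hg w hw).1, (hg w' hw').1, h2]
    have hccw : ∀ w ∈ Tu, cc (w.getD r 0) = c w := by
      intro w hw
      rw [hcc]
      exact congrArg c (hg w hw).1.symm
    have hzero : ∀ q : ℕ, q.Prime → q ≤ L → ∑ p ∈ Su, (cc p : ℝ) / (q : ℝ) ^ p = 0 := by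
      intro q hq hqL
      rw [hSu, sum_image (fun w hw w' hw' h2 => hinj w hw w' hw' h2), ← helim q hq hqL, ← hTu]
      exact sum_congr rfl fun w hw => by rw [hccw w hw]
    have hw0Tu : w0 ∈ Tu := by
      rw [hTu, mem_filter]
      exact ⟨hw0T, hu.symm⟩
    have hTuS : ∀ w ∈ Tu, w ∈ S := by
      intro w hw
      rw [hTu, mem_filter] at hw
      exact (hTS w hw.1).1
    have hcc0 : ∃ p ∈ Su, cc p ≠ 0 := by
      refine ⟨w0.getD r 0, ?_, ?_⟩
      · rw [hSu]
        exact mem_image_of_mem _ hw0Tu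
      · rw [hccw w0 hw0Tu]
        exact hcw0
    rcases hprime with h2 | h2
    · have h3 := DZ.primorial_le (S := Su) (c := cc) (H := H) hcc0 (fun p hp => by
        rw [hSu, mem_image] at hp
        obtain ⟨w, hw, rfl⟩ := hp
        rw [hccw w hw]
        exact h.hc w (hTuS w hw)) hzero
      linarith
    · have h3 := DZ.primeCounting_le (S := Su) (c := cc) hcc0 (p0 := e * K) (W := W) (fun p hp => by
        rw [hSu, mem_image] at hp
        obtain ⟨w, hw, rfl⟩ := hp
        obtain ⟨-, h4, h5⟩ := hg w hw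
        have h6 := (h.hS w (hTuS w hw) _ h5).2
        rw [h4] at h6
        have h7 : e * (C - K) ≤ W := (Nat.mul_le_mul_right _ (by omega)).trans hW
        refine ⟨by omega, h6.2.trans ?_⟩
        rcases Nat.le_total C K with h8 | h8
        · have := Nat.mul_le_mul_left e h8
          omega
        · have h9 : e * C = e * K + e * (C - K) := by
            rw [← Nat.mul_add]
            congr 1
            omega
          omega) hzero
      omega

/-- **the explicit theorem** -/
theorem explicit (h : Data K C b al S c H) (hb : 1 ≤ b) {k : ℕ} (hk : ∀ w ∈ S, w.sum = k)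
    (hc : ∃ w ∈ S, c w ≠ 0) {W L Y X : ℕ} (hW : b * (C - K) ≤ W) (hLY : L ≤ Y) (hL : 1 ≤ L)
    (hcard : ∀ j < b, W < ((Ioc (8 ^ j * Y) (8 ^ (j + 1) * Y)).filter Nat.Prime).card)
    (hprime : H < primorial L ∨ W < Nat.primeCounting L) (hX : (8 ^ b * Y) ^ (b - 2) * L ≤ X)
    (hnum : ∀ x : ℕ, 1 ≤ x → x ≤ X → 2 * (S.card * 2 ^ b * H * (x : ℝ) ^ C) ≤ ((x : ℝ) + 1) ^ K) :
    1 / (2 * (X : ℝ) ^ C) ≤ |FF S c| := by
  have main := exists_class h hb hk hc hW hLY hL hcard hprime hX
  obtain ⟨hx1, hxX, hxA⟩ := Nat.find_spec main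
  obtain ⟨x, hx⟩ : ∃ x, x = Nat.find main := ⟨_, rfl⟩
  have hmin : ∀ y, 1 ≤ y → y < x → AA al S c X y = 0 := by
    intro y hy1 hy2
    by_contra hcon
    rw [hx] at hy2
    exact Nat.find_min main hy2 ⟨hy1, by omega, hcon⟩
  rw [← hx] at hx1 hxX hxA
  refine le_trans ?_ (main_low h hx1 hxX hmin hxA (hnum x hx1 hxX))
  have hx0 : (0 : ℝ) < x := by exact_mod_cast hx1
  refine one_div_le_one_div_of_le (by positivity) ?_
  refine mul_le_mul_of_nonneg_left ?_ (by norm_num)
  refine pow_le_pow_left₀ hx0.le ?_ _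
  exact_mod_cast hxX

end

end Pool.Agent.NH24.GD
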