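import Pool.Agent.NH24.GD.E
import Pool.Agent.NH24.DZ.E
import Pool.Agent.NH24.SQ.C

/-!
# Multiple zeta values of weight `k` whose arguments are near multiples of `k / b`: parameters
-/

set_option autoImplicit false

namespace Pool.Agent.NH24.GD

open Finset Filter

/-- the multiple of an argument -/
def alpha (b k x : ℕ) : ℕ := (2 * b * x + k) / (2 * k)

lemma alpha_eq {b k R x a : ℕ} (hR : 2 * R < k) (h1 : a * k ≤ b * x + R) (h2 : b * x ≤ a * k + R) :
    alpha b k x = a := by
  unfold alpha
  have hk : 0 < 2 * k := by omega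
  have e1 : 2 * b * x = 2 * (b * x) := by ring
  have e2 : a * (2 * k) = 2 * (a * k) := by ring
  have e3 : (a + 1) * (2 * k) = 2 * (a * k) + 2 * k := by ring
  refine le_antisymm ?_ ?_
  · rw [← Nat.lt_succ_iff, Nat.succ_eq_add_one, Nat.div_lt_iff_lt_mul hk, e1, e3]
    omega
  · rw [Nat.le_div_iff_mul_le hk, e1, e2]
    omega

/-- the conditions for the arguments -/
def Near (b k R : ℕ) (S : Finset (List ℕ)) : Prop :=
  ∀ w ∈ S, w.sum = k ∧ ∀ x ∈ w, ∃ a : ℕ, 1 ≤ a ∧ a * k ≤ b * x + R ∧ b * x ≤ a * k + R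

lemma sum_bounds {b k R : ℕ} : ∀ w : List ℕ, (∀ x ∈ w, alpha b k x * k ≤ b * x + R ∧
    b * x ≤ alpha b k x * k + R) → (w.map (alpha b k)).sum * k ≤ b * w.sum + w.length * R ∧
    b * w.sum ≤ (w.map (alpha b k)).sum * k + w.length * R
  | [], _ => by simp
  | x :: w, h => by
    obtain ⟨h1, h2⟩ := sum_bounds w fun y hy => h y (List.mem_cons_of_mem _ hy)
    obtain ⟨h3, h4⟩ := h x List.mem_cons_self
    rw [List.map_cons, List.sum_cons, List.sum_cons, List.length_cons]
    constructor
    · calc (alpha b k x + (w.map (alpha b k)).sum) * k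
          = alpha b k x * k + (w.map (alpha b k)).sum * k := by ring
        _ ≤ (b * x + R) + (b * w.sum + w.length * R) := Nat.add_le_add h3 h1
        _ = _ := by ring
    · calc b * (x + w.sum) = b * x + b * w.sum := by ring
        _ ≤ (alpha b k x * k + R) + ((w.map (alpha b k)).sum * k + w.length * R) := Nat.add_le_add h4 h2
        _ = _ := by ring

lemma len_le {K : ℕ} : ∀ w : List ℕ, (∀ x ∈ w, K ≤ x) → w.length * K ≤ w.sum
  | [], _ => by simp
  | x :: w, h => by
    have h1 := len_le w fun y hy => h y (List.mem_cons_of_mem _ hy)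
    have h2 := h x List.mem_cons_self
    rw [List.length_cons, List.sum_cons]
    calc (w.length + 1) * K = K + w.length * K := by ring
      _ ≤ _ := Nat.add_le_add h2 h1

lemma near_data {b k R : ℕ} {S : Finset (List ℕ)} {c : List ℕ → ℤ} {H : ℝ} (hb : 1 ≤ b)
    (hk : 2 * (R + 3 * b) + 1 ≤ k) (hkR : 2 * b * R < k) (hS : Near b k R S)
    (hc : ∀ w ∈ S, |(c w : ℝ)| ≤ H) (hH : 0 ≤ H) :
    Data ((k - R - 2 * b) / b) ((k + R) / b + 1) b (alpha b k) S c H := by
  obtain ⟨K, hK⟩ : ∃ K, K = (k - R - 2 * b) / b := ⟨_, rfl⟩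
  obtain ⟨C, hC⟩ : ∃ C, C = (k + R) / b + 1 := ⟨_, rfl⟩
  rw [← hK, ← hC]
  have hK1 : b * K ≤ k - R - 2 * b := by
    rw [hK]
    exact Nat.mul_div_le _ _
  have hK2 : k - R - 2 * b < b * K + b := by
    have := Nat.lt_mul_div_succ (k - R - 2 * b) (show 0 < b by omega)
    rw [← hK] at this
    linarith
  have hC1 : k + R ≤ b * C := by
    have := Nat.lt_mul_div_succ (k + R) (show 0 < b by omega)
    rw [hC]
    exact this.le
  have hal : ∀ w ∈ S, ∀ x ∈ w, 1 ≤ alpha b k x ∧ alpha b k x * k ≤ b * x + R ∧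
      b * x ≤ alpha b k x * k + R := by
    intro w hw x hx
    obtain ⟨a, h1, h2, h3⟩ := (hS w hw).2 x hx
    have h4 := alpha_eq (show 2 * R < k by omega) h2 h3
    rw [h4]
    exact ⟨h1, h2, h3⟩
  have hw1 : ∀ w ∈ S, ∀ x ∈ w, 1 ≤ alpha b k x ∧ alpha b k x * K + 2 ≤ x ∧ x ≤ alpha b k x * C := by
    intro w hw x hx
    obtain ⟨h1, h2, h3⟩ := hal w hw x hx
    obtain ⟨a, ha⟩ : ∃ a, a = alpha b k x := ⟨_, rfl⟩
    rw [← ha] at h1 h2 h3 ⊢
    refine ⟨h1, ?_, ?_⟩
    · have h4 : b * (a * K + 2) ≤ b * x := by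
        have h5 : b * (a * K + 2) = a * (b * K) + 2 * b := by ring
        have h6 : a * (b * K) ≤ a * (k - R - 2 * b) := Nat.mul_le_mul_left a hK1
        have h7 : a * (k - R - 2 * b) + a * (R + 2 * b) = a * k := by
          rw [← Nat.mul_add]
          congr 1
          omega
        have h8 : R + 2 * b ≤ a * (R + 2 * b) := Nat.le_mul_of_pos_left _ h1
        omega
      exact Nat.le_of_mul_le_mul_left h4 (by omega)
    · have h4 : b * x ≤ b * (a * C) := by
        have h5 : b * (a * C) = a * (b * C) := by ring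
        have h6 : a * (k + R) ≤ a * (b * C) := Nat.mul_le_mul_left a hC1
        have h7 : a * (k + R) = a * k + a * R := by ring
        have h8 : R ≤ a * R := Nat.le_mul_of_pos_left _ h1
        omega
      exact Nat.le_of_mul_le_mul_left h4 (by omega)
  refine ⟨hw1, fun w hw => ?_, hc, hH⟩
  have hsum := (hS w hw).1
  obtain ⟨h1, h2⟩ := sum_bounds (b := b) (k := k) (R := R) w fun x hx => (hal w hw x hx).2
  rw [hsum] at h1 h2
  have h3 : w.length * K ≤ w.sum := len_le w fun x hx => by
    obtain ⟨h4, h5, -⟩ := hw1 w hw x hx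
    have : K ≤ alpha b k x * K := Nat.le_mul_of_pos_left _ h4
    omega
  rw [hsum] at h3
  have h4 : w.length ≤ 2 * b := by
    by_contra hcon
    push Not at hcon
    have h5 : (2 * b + 1) * K ≤ k := (Nat.mul_le_mul_right K hcon).trans h3
    have h6 : (2 * b + 1) * K = 2 * (b * K) + K := by ring
    have h7 : k < 2 * (b * K) + K + 1 := by
      have : b * 1 ≤ b * K ∨ K = 0 := by
        rcases Nat.eq_zero_or_pos K with h8 | h8
        · exact Or.inr h8
        · exact Or.inl (Nat.mul_le_mul_left b h8)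
      rcases this with h8 | h8
      · omega
      · rw [h8] at hK2
        omega
    have h8 : K ≠ 0 := by
      intro h9
      rw [h9] at hK2
      omega
    omega
  have h5 : w.length * R ≤ 2 * b * R := Nat.mul_le_mul_right R h4
  obtain ⟨s, hs⟩ : ∃ s, s = (w.map (alpha b k)).sum := ⟨_, rfl⟩
  rw [← hs] at h1 h2 ⊢
  rcases lt_trichotomy s b with h6 | h6 | h6
  · exfalso
    have h7 : (s + 1) * k ≤ b * k := Nat.mul_le_mul_right k h6
    have h8 : (s + 1) * k = s * k + k := by ring
    omega
  · exact h6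
  · exfalso
    have h7 : (b + 1) * k ≤ s * k := Nat.mul_le_mul_right k h6
    have h8 : (b + 1) * k = b * k + k := by ring
    omega

lemma card_le {K C b k : ℕ} {al : ℕ → ℕ} {S : Finset (List ℕ)} {c : List ℕ → ℤ} {H : ℝ}
    (h : Data K C b al S c H) (hk : ∀ w ∈ S, w.sum = k) : S.card ≤ (k + 1) ^ b := by
  classical
  have h1 : S.card ≤ (Finset.univ : Finset (Fin b → Fin (k + 1))).card := by
    refine Finset.card_le_card_of_injOn (fun w i => Fin.ofNat (k + 1) (w.getD i 0)) (fun _ _ => by simp)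
      fun w hw w' hw' hww => ?_
    have hle : ∀ w ∈ S, ∀ i, w.getD i 0 < k + 1 := by
      intro w hw i
      rcases lt_or_ge i w.length with hi | hi
      · have h2 := List.single_le_sum (l := w) (fun x _ => Nat.zero_le x) (w.getD i 0) (by
          rw [List.getD_eq_getElem _ _ hi]
          exact List.getElem_mem hi)
        rw [hk w hw] at h2
        omega
      · rw [List.getD_eq_default _ _ hi]
        omega
    have hget : ∀ i, w.getD i 0 = w'.getD i 0 := by
      intro i
      rcases lt_or_ge i b with hi | hi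
      · have h2 := congrArg Fin.val (congrFun hww ⟨i, hi⟩)
        simp only [Fin.ofNat] at h2
        rwa [Nat.mod_eq_of_lt (hle w hw i), Nat.mod_eq_of_lt (hle w' hw' i)] at h2
      · rw [List.getD_eq_default _ _ ((h.len hw).trans hi), List.getD_eq_default _ _ ((h.len hw').trans hi)]
    have hpos : ∀ w ∈ S, ∀ i, i < w.length → w.getD i 0 ≠ 0 := by
      intro w hw i hi
      rw [List.getD_eq_getElem _ _ hi]
      have := (h.hS w hw _ (List.getElem_mem hi)).2.1
      omega
    have hlen : w.length = w'.length := by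
      rcases lt_trichotomy w.length w'.length with h2 | h2 | h2
      · exfalso
        have h3 := hget w.length
        rw [List.getD_eq_default _ _ le_rfl] at h3
        exact hpos w' hw' _ h2 h3.symm
      · exact h2
      · exfalso
        have h3 := hget w'.length
        rw [List.getD_eq_default w' _ le_rfl] at h3
        exact hpos w hw _ h2 h3
    refine List.ext_getElem hlen fun i hi hi' => ?_
    have h2 := hget i
    rwa [List.getD_eq_getElem _ _ hi, List.getD_eq_getElem _ _ hi'] at h2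
  simpa using h1

/-- there are many primes in `(y / 8, y]` -/
lemma card_PR {y : ℕ} (hy : 1 ≤ y) (h : (2 : ℝ) ^ ((y : ℝ) / 4) ≤ SQ.PR (y / 8) y) :
    (y : ℝ) / 4 * Real.log 2 ≤ (((Ioc (y / 8) y).filter Nat.Prime).card : ℝ) * Real.log y := by
  have hy0 : (0 : ℝ) < y := by exact_mod_cast hy
  have h1 : (SQ.PR (y / 8) y : ℝ) ≤ (y : ℝ) ^ ((Ioc (y / 8) y).filter Nat.Prime).card := by
    have h2 : SQ.PR (y / 8) y ≤ y ^ ((Ioc (y / 8) y).filter Nat.Prime).card := by
      unfold SQ.PR
      refine Finset.prod_le_pow_card _ _ _ fun p hp => ?_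
      rw [mem_filter, mem_Ioc] at hp
      exact hp.1.2
    exact_mod_cast h2
  have h2 := h.trans h1
  rw [← Real.log_le_log_iff (by positivity) (by positivity), Real.log_rpow (by norm_num),
    Real.log_pow] at h2
  exact h2

end Pool.Agent.NH24.GD
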