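import Pool.Agent.NH24.GD.F

/-!
# Multiple zeta values of weight `k` whose arguments are near multiples of `k / b`: the theorem
-/

set_option autoImplicit false

namespace Pool.Agent.NH24.GD

open Finset Filter Pool.Agent.NH24.DZ

theorem powers {b : ℕ} (hb : 2 ≤ b) {t g e : ℝ} (ht : 0 < t) (hg : 0 < g)
    (h : ((b : ℝ) - 1) * t + g < 1) (he : ((b : ℝ) - 1) * t < b * e) :
    ∃ k0 : ℕ, ∀ k : ℕ, k0 ≤ k → ∀ S : Finset (List ℕ), Near b k ⌊(k : ℝ) ^ t⌋₊ S →
      ∀ c : List ℕ → ℤ, (∃ w ∈ S, c w ≠ 0) → (∀ w ∈ S, |(c w : ℝ)| ≤ (2 : ℝ) ^ ((k : ℝ) ^ g)) →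
      ((k : ℝ) ^ (e * k))⁻¹ < |FF S c| := by
  have hl2 : 0 < Real.log 2 := Real.log_pos (by norm_num)
  have hb2 : (2 : ℝ) ≤ b := by exact_mod_cast hb
  have hb0 : (0 : ℝ) < b := by linarith
  have hb1 : 1 ≤ b := by omega
  obtain ⟨m, hm⟩ : ∃ m, m = min t g := ⟨_, rfl⟩
  obtain ⟨M, hM⟩ : ∃ M, M = max t g := ⟨_, rfl⟩
  have hm0 : 0 < m := by
    rw [hm]
    exact lt_min ht hg
  have hmt : m ≤ t := by rw [hm]; exact min_le_left _ _
  have htM : t ≤ M := by rw [hM]; exact le_max_left _ _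
  have hgM : g ≤ M := by rw [hM]; exact le_max_right _ _
  have hmM : m + M = t + g := by rw [hm, hM]; exact min_add_max t g
  have hM0 : 0 < M := lt_of_lt_of_le ht htM
  -- the exponent of `X`
  obtain ⟨x, hx1, hx2⟩ : ∃ x, ((b : ℝ) - 2) * t + m < x ∧ x < min (1 - M) (b * e) := by
    refine exists_between (lt_min ?_ ?_)
    · linarith
    · linarith
  rw [lt_min_iff] at hx2
  obtain ⟨hx2, hx3⟩ := hx2
  have hx0 : 0 < x := by
    have : 0 ≤ ((b : ℝ) - 2) * t := mul_nonneg (by linarith) ht.le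
    linarith
  obtain ⟨η, hη⟩ : ∃ η, η = (x - (((b : ℝ) - 2) * t + m)) / (2 * b) := ⟨_, rfl⟩
  have hη0 : 0 < η := by
    rw [hη]
    apply div_pos <;> linarith
  obtain ⟨t', ht'⟩ : ∃ t', t' = t + η := ⟨_, rfl⟩
  obtain ⟨m', hm'⟩ : ∃ m', m' = m + η := ⟨_, rfl⟩
  have hxt : ((b : ℝ) - 2) * t' + m' < x := by
    have h1 : 2 * b * η = x - (((b : ℝ) - 2) * t + m) := by
      rw [hη]
      field_simp
    have h2 : 0 < b * η := by positivity
    rw [ht', hm']
    linarith
  have hM1 : M < 1 := by linarith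
  have ht1 : t < 1 := lt_of_le_of_lt htM hM1
  have hx11 : x < 1 := by linarith
  have ht'0 : 0 < t' := by rw [ht']; linarith
  have hm'0 : 0 < m' := by rw [hm']; linarith
  have hm't' : m' ≤ t' := by rw [ht', hm']; linarith
  -- eventual inequalities
  have E1 := ev_nat (ev_pow (μ := t) (ν := 1) ht1 one_pos (2 * b) (10 * b + 10) (e := 1 / 2) (by norm_num))
  have E2 := ev_nat (ev_pow (μ := M) (ν := 1 - x) (by linarith) (by linarith) (10 * b + 20)
    (2 * Real.log 2) (e := Real.log 2 / (2 * b)) (by positivity))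
  have E3 := ev_nat (ev_pow (μ := m) (ν := m') (by rw [hm']; linarith) hm'0
    ((2 + 4 * b) * 2 / Real.log 2 + 2) 2 (e := 1) one_pos)
  have E4 := ev_nat (ev_pow (μ := t) (ν := 1) ht1 one_pos (x / b) (2 + x)
    (e := (e - x / b) / 2) (by
      have : 0 < e - x / b := by
        rw [sub_pos, div_lt_iff₀ hb0]
        linarith
      linarith))
  have E5 := ev_nat (ev_pow (μ := t) (ν := t') (by rw [ht']; linarith) ht'0
    ((2 + 4 * b) * (4 * b) / Real.log 2) 1 (e := 1) one_pos)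
  have E6 := ev_nat (ev_pow (μ := ((b : ℝ) - 2) * t' + m') (ν := x) hxt hx0
    ((8 : ℝ) ^ (b * (b - 2))) 0 (e := 1) one_pos)
  obtain ⟨L0, hL0⟩ := eventually_atTop.1 ev_primorial
  obtain ⟨Y0, hY0⟩ := eventually_atTop.1 SQ.ev_PR
  have E7 : ∀ᶠ k : ℕ in atTop, ((L0 : ℝ) + Y0 + 2) ≤ (k : ℝ) ^ m' :=
    ev_nat ((tendsto_rpow_atTop hm'0).eventually (eventually_ge_atTop _))
  obtain ⟨k0, hk0⟩ := eventually_atTop.1 (E1.and (E2.and (E3.and (E4.and (E5.and (E6.and (E7.and
    (eventually_ge_atTop 8))))))))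
  refine ⟨k0, fun k hk S hS c hc hcH => ?_⟩
  obtain ⟨F1, F2, F3, F4, F5, F6, F7, hk3⟩ := hk0 k hk
  have hk8 : (8 : ℝ) ≤ k := by exact_mod_cast hk3
  have hkp : (0 : ℝ) < k := by linarith
  have hk1 : (1 : ℝ) ≤ k := by linarith
  have hlog : 1 ≤ Real.log k := by
    rw [← Real.log_exp 1]
    exact Real.log_le_log (Real.exp_pos 1) (by linarith [Real.exp_one_lt_d9])
  have hlog8 : Real.log 8 ≤ Real.log k := Real.log_le_log (by norm_num) hk8
  rw [Real.rpow_one] at F1 F4
  rw [one_mul] at F3 F5 F6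
  obtain ⟨y, hy⟩ : ∃ y, y = (k : ℝ) ^ t := ⟨_, rfl⟩
  obtain ⟨R, hR⟩ : ∃ R, R = ⌊y⌋₊ := ⟨_, rfl⟩
  obtain ⟨L, hL⟩ : ∃ L, L = ⌊(k : ℝ) ^ m'⌋₊ := ⟨_, rfl⟩
  obtain ⟨Y, hY⟩ : ∃ Y, Y = ⌊(k : ℝ) ^ t'⌋₊ := ⟨_, rfl⟩
  obtain ⟨X, hX⟩ : ∃ X, X = ⌊(k : ℝ) ^ x⌋₊ := ⟨_, rfl⟩
  have hy1 : 1 ≤ y := by
    rw [hy]
    exact Real.one_le_rpow hk1 ht.le
  have hRy : (R : ℝ) ≤ y := by
    rw [hR]
    exact Nat.floor_le (by linarith)
  have hylog : y ≤ y * Real.log k := le_mul_of_one_le_right (by linarith) hlog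
  have hLs : (L : ℝ) ≤ (k : ℝ) ^ m' := by
    rw [hL]
    exact Nat.floor_le (by positivity)
  have hLs' : (k : ℝ) ^ m' < L + 1 := by
    rw [hL]
    exact Nat.lt_floor_add_one _
  have hYs : (Y : ℝ) ≤ (k : ℝ) ^ t' := by
    rw [hY]
    exact Nat.floor_le (by positivity)
  have hYs' : (k : ℝ) ^ t' < Y + 1 := by
    rw [hY]
    exact Nat.lt_floor_add_one _
  have hXs : (X : ℝ) ≤ (k : ℝ) ^ x := by
    rw [hX]
    exact Nat.floor_le (by positivity)
  have hLY : L ≤ Y := by
    rw [hL, hY]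
    exact Nat.floor_le_floor (Real.rpow_le_rpow_of_exponent_le hk1 hm't')
  have hLL0 : L0 + Y0 < L := by
    have h1 : (L0 : ℝ) + Y0 < L := by linarith
    exact_mod_cast h1
  have hL1 : 1 ≤ L := by omega
  have hL1' : (1 : ℝ) ≤ L := by exact_mod_cast hL1
  have hyM : y ≤ (k : ℝ) ^ M := by
    rw [hy]
    exact Real.rpow_le_rpow_of_exponent_le hk1 htM
  have hgM' : (k : ℝ) ^ g ≤ (k : ℝ) ^ M := Real.rpow_le_rpow_of_exponent_le hk1 hgM
  have hkM : 1 ≤ (k : ℝ) ^ M := Real.one_le_rpow hk1 hM0.le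
  have hlogk0 : 0 < Real.log k := by linarith
  have hlog2k : Real.log 2 ≤ Real.log k := Real.log_le_log (by norm_num) (by linarith)
  have hlog21 : Real.log 2 < 1 := by linarith [Real.log_two_lt_d9]
  have hF1 : 2 * b * y + (10 * b + 10) ≤ k / 2 := by
    rw [← hy] at F1
    have : 2 * b * y ≤ 2 * b * (y * Real.log k) := mul_le_mul_of_nonneg_left hylog (by linarith)
    linarith
  have hyb : y ≤ b * y := le_mul_of_one_le_left (by linarith) (by linarith)
  have hkR1 : 2 * (R + 3 * b) + 1 ≤ k := by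
    have h1 : 2 * ((R : ℝ) + 3 * b) + 1 ≤ k := by linarith
    exact_mod_cast h1
  have hkR2 : 2 * b * R < k := by
    have h2 : (b : ℝ) * R ≤ b * y := mul_le_mul_of_nonneg_left hRy hb0.le
    have h1 : 2 * (b : ℝ) * R < k := by linarith
    exact_mod_cast h1
  rw [← hy, ← hR] at hS
  have hH1 : (1 : ℝ) ≤ (2 : ℝ) ^ ((k : ℝ) ^ g) := Real.one_le_rpow (by norm_num) (by positivity)
  have hD := near_data (c := c) hb1 hkR1 hkR2 hS hcH (by linarith)
  have hcard := card_le hD fun w hw => (hS w hw).1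
  obtain ⟨K, hK⟩ : ∃ K, K = (k - R - 2 * b) / b := ⟨_, rfl⟩
  obtain ⟨C, hC⟩ : ∃ C, C = (k + R) / b + 1 := ⟨_, rfl⟩
  rw [← hK, ← hC] at hD
  have hK2 : k - R - 2 * b < b * K + b := by
    have := Nat.lt_mul_div_succ (k - R - 2 * b) (show 0 < b by omega)
    rw [← hK] at this
    linarith
  have hC1 : b * C ≤ k + R + b := by
    have := Nat.mul_div_le (k + R) b
    rw [hC, Nat.mul_add]
    omega
  obtain ⟨W, hW⟩ : ∃ W, W = 2 * R + 4 * b := ⟨_, rfl⟩
  have hWb : b * (C - K) ≤ W := by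
    rw [Nat.mul_sub]
    omega
  have hWr : (W : ℝ) ≤ (2 + 4 * b) * y := by
    rw [hW]
    push_cast
    have h1 : (b : ℝ) ≤ b * y := le_mul_of_one_le_right hb0.le hy1
    linarith
  -- the numbers of primes
  have hcardP : ∀ j < b, W < ((Ioc (8 ^ j * Y) (8 ^ (j + 1) * Y)).filter Nat.Prime).card := by
    intro j hj
    obtain ⟨z, hz⟩ : ∃ z, z = 8 ^ (j + 1) * Y := ⟨_, rfl⟩
    have hz8 : z / 8 = 8 ^ j * Y := by
      rw [hz, pow_succ]
      have : 8 ^ j * 8 * Y = 8 * (8 ^ j * Y) := by ring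
      rw [this, Nat.mul_div_cancel_left _ (by norm_num)]
    have hYz : 8 * Y ≤ z := by
      rw [hz, pow_succ]
      have h1 : 1 ≤ 8 ^ j := Nat.one_le_pow _ _ (by norm_num)
      calc 8 * Y = 1 * 8 * Y := by ring
        _ ≤ 8 ^ j * 8 * Y := Nat.mul_le_mul_right Y (Nat.mul_le_mul_right 8 h1)
    have h1 := card_PR (y := z) (by omega) (hY0 z (by omega))
    rw [hz8] at h1
    by_contra hcon
    push Not at hcon
    rw [← hz] at hcon
    have h2 : (((Ioc (8 ^ j * Y) z).filter Nat.Prime).card : ℝ) ≤ (2 + 4 * b) * y := by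
      have h3 : (((Ioc (8 ^ j * Y) z).filter Nat.Prime).card : ℝ) ≤ W := by
        exact_mod_cast hcon
      linarith
    have hz0 : (0 : ℝ) < z := by
      have : 0 < z := by omega
      exact_mod_cast this
    have hz1 : (1 : ℝ) ≤ z := by
      have : 1 ≤ z := by omega
      exact_mod_cast this
    have h4 : Real.log z ≤ (2 * b) * Real.log k := by
      have h5 : (z : ℝ) ≤ (k : ℝ) ^ (2 * b) := by
        have h6 : (z : ℝ) = 8 ^ (j + 1) * Y := by
          rw [hz]
          push_cast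
          rfl
        have h7 : (8 : ℝ) ^ (j + 1) ≤ (k : ℝ) ^ b := by
          calc (8 : ℝ) ^ (j + 1) ≤ (k : ℝ) ^ (j + 1) := pow_le_pow_left₀ (by norm_num) hk8 _
            _ ≤ (k : ℝ) ^ b := pow_le_pow_right₀ hk1 (by omega)
        have h8 : (Y : ℝ) ≤ (k : ℝ) ^ b := by
          refine hYs.trans ?_
          rw [← Real.rpow_natCast]
          refine Real.rpow_le_rpow_of_exponent_le hk1 ?_
          have h9 : t' ≤ b := by
            have h10 : 2 * b * η = x - (((b : ℝ) - 2) * t + m) := by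
              rw [hη]
              field_simp
            have h11 : 0 ≤ ((b : ℝ) - 2) * t := mul_nonneg (by linarith) ht.le
            have h13 : η ≤ 2 * b * η := le_mul_of_one_le_left hη0.le (by linarith)
            have h12 : η ≤ 1 := by linarith
            rw [ht']
            linarith
          exact h9
        rw [h6]
        calc (8 : ℝ) ^ (j + 1) * Y ≤ (k : ℝ) ^ b * (k : ℝ) ^ b :=
              mul_le_mul h7 h8 (Nat.cast_nonneg _) (by positivity)
          _ = (k : ℝ) ^ (2 * b) := by rw [← pow_add, two_mul]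
      calc Real.log z ≤ Real.log ((k : ℝ) ^ (2 * b)) := Real.log_le_log hz0 h5
        _ = _ := by
          rw [Real.log_pow]
          push_cast
          ring
    have h5 : (2 : ℝ) * Y * Real.log 2 ≤ (2 + 4 * b) * y * ((2 * b) * Real.log k) := by
      have h6 : (2 : ℝ) * Y ≤ (z : ℝ) / 4 := by
        have : (8 : ℝ) * Y ≤ z := by exact_mod_cast hYz
        linarith
      calc (2 : ℝ) * Y * Real.log 2 ≤ (z : ℝ) / 4 * Real.log 2 := mul_le_mul_of_nonneg_right h6 hl2.le
        _ ≤ _ := h1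
        _ ≤ (2 + 4 * b) * y * ((2 * b) * Real.log k) :=
          mul_le_mul h2 h4 (Real.log_nonneg hz1) (by positivity)
    have h6 : (2 + 4 * (b : ℝ)) * (4 * b) / Real.log 2 * (y * Real.log k) + 1 ≤ (k : ℝ) ^ t' := by
      rw [hy]
      exact F5
    have h7 : (2 : ℝ) * Y ≤ (2 + 4 * (b : ℝ)) * (2 * b) / Real.log 2 * (y * Real.log k) := by
      rw [div_mul_eq_mul_div, le_div_iff₀ hl2]
      linarith
    have h8 : (2 + 4 * (b : ℝ)) * (4 * b) / Real.log 2 * (y * Real.log k) =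
        2 * ((2 + 4 * (b : ℝ)) * (2 * b) / Real.log 2 * (y * Real.log k)) := by ring
    have h9 : (0 : ℝ) < Y := by
      have : 0 < Y := by omega
      exact_mod_cast this
    linarith
  -- primes for the last variable
  have hprim := hL0 L (by omega)
  have hprime : (2 : ℝ) ^ ((k : ℝ) ^ g) < primorial L ∨ W < Nat.primeCounting L := by
    rcases le_total g t with hgt | hgt
    · left
      refine lt_of_lt_of_le ?_ hprim
      refine Real.rpow_lt_rpow_of_exponent_lt (by norm_num) ?_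
      have h8 : m = g := by rw [hm]; exact min_eq_right hgt
      rw [h8] at F3
      have h10 : ((2 + 4 * (b : ℝ)) * 2 / Real.log 2 + 2) * (k : ℝ) ^ g ≤
          ((2 + 4 * (b : ℝ)) * 2 / Real.log 2 + 2) * ((k : ℝ) ^ g * Real.log k) := by
        refine mul_le_mul_of_nonneg_left ?_ (by positivity)
        exact le_mul_of_one_le_right (by positivity) hlog
      have h11 : 0 < (2 + 4 * (b : ℝ)) * 2 / Real.log 2 * (k : ℝ) ^ g := by positivity
      linarith
    · right
      by_contra hcon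
      push Not at hcon
      have h8 : m = t := by rw [hm]; exact min_eq_left hgt
      rw [h8, ← hy] at F3
      have h10 := primeCounting_ge hprim
      have h11 : (Nat.primeCounting L : ℝ) ≤ (2 + 4 * b) * y := by
        have : (Nat.primeCounting L : ℝ) ≤ W := by exact_mod_cast hcon
        linarith
      have h16 : 0 < y * Real.log k := by positivity
      have hLk : Real.log L ≤ Real.log k := by
        have hm'1 : m' ≤ 1 := by
          have h1 : 0 ≤ ((b : ℝ) - 2) * t' := mul_nonneg (by linarith) ht'0.le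
          linarith
        refine Real.log_le_log (by linarith) (hLs.trans ?_)
        calc (k : ℝ) ^ m' ≤ (k : ℝ) ^ (1 : ℝ) := Real.rpow_le_rpow_of_exponent_le hk1 hm'1
          _ = k := Real.rpow_one _
      have h12 : (Nat.primeCounting L : ℝ) * Real.log L ≤ (2 + 4 * b) * y * Real.log k :=
        mul_le_mul h11 hLk (Real.log_nonneg hL1') (by positivity)
      have h14 : (L : ℝ) * Real.log 2 ≤ (2 + 4 * b) * 2 * (y * Real.log k) := by linarith
      have h15 : (L : ℝ) ≤ (2 + 4 * b) * 2 / Real.log 2 * (y * Real.log k) := by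
        rw [div_mul_eq_mul_div, le_div_iff₀ hl2]
        exact h14
      linarith
  -- the bound for the sizes
  have hXle : (8 ^ b * Y) ^ (b - 2) * L ≤ X := by
    rw [hX]
    refine Nat.le_floor ?_
    push_cast
    have h1 : ((8 : ℝ) ^ b * Y) ^ (b - 2) ≤ ((8 : ℝ) ^ b * (k : ℝ) ^ t') ^ (b - 2) :=
      pow_le_pow_left₀ (by positivity) (mul_le_mul_of_nonneg_left hYs (by positivity)) _
    have h2 : ((8 : ℝ) ^ b * (k : ℝ) ^ t') ^ (b - 2) * (k : ℝ) ^ m' =
        (8 : ℝ) ^ (b * (b - 2)) * (k : ℝ) ^ (((b : ℝ) - 2) * t' + m') := by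
      rw [mul_pow, ← pow_mul, ← Real.rpow_natCast ((k : ℝ) ^ t'), ← Real.rpow_mul hkp.le,
        Real.rpow_add hkp, Nat.cast_sub hb]
      push_cast
      rw [mul_comm t']
      ring
    calc ((8 : ℝ) ^ b * Y) ^ (b - 2) * L ≤ ((8 : ℝ) ^ b * (k : ℝ) ^ t') ^ (b - 2) * (k : ℝ) ^ m' :=
          mul_le_mul h1 hLs (Nat.cast_nonneg _) (by positivity)
      _ = (8 : ℝ) ^ (b * (b - 2)) * (k : ℝ) ^ (((b : ℝ) - 2) * t' + m') := h2
      _ ≤ (8 : ℝ) ^ (b * (b - 2)) * ((k : ℝ) ^ (((b : ℝ) - 2) * t' + m') * Real.log k) := by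
          refine mul_le_mul_of_nonneg_left ?_ (by positivity)
          exact le_mul_of_one_le_right (by positivity) hlog
      _ ≤ (k : ℝ) ^ x := by linarith
  have hX1 : 1 ≤ X := by
    refine le_trans ?_ hXle
    exact Nat.mul_pos (Nat.pow_pos (Nat.mul_pos (Nat.pow_pos (by norm_num)) (by omega))) (by omega)
  have hX0 : (1 : ℝ) ≤ X := by exact_mod_cast hX1
  have hlX : Real.log X ≤ x * Real.log k := by
    rw [← Real.log_rpow hkp]
    exact Real.log_le_log (by linarith) hXs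
  have hlX0 : 0 ≤ Real.log X := Real.log_nonneg hX0
  -- the numerical inequality
  have hnum : ∀ z : ℕ, 1 ≤ z → z ≤ X →
      2 * (S.card * 2 ^ b * (2 : ℝ) ^ ((k : ℝ) ^ g) * (z : ℝ) ^ C) ≤ ((z : ℝ) + 1) ^ K := by
    intro z hz1 hzX
    have hz0 : (1 : ℝ) ≤ z := by exact_mod_cast hz1
    have hzX' : (z : ℝ) ≤ X := by exact_mod_cast hzX
    have hcardr : (S.card : ℝ) ≤ ((k : ℝ) + 1) ^ b := by exact_mod_cast hcard
    have hKC : K ≤ C := by
      rw [hK, hC]
      exact (Nat.div_le_div_right (by omega)).trans (Nat.le_succ _)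
    have hmainlog : 2 * (((k : ℝ) + 1) ^ b * 2 ^ b * (2 : ℝ) ^ ((k : ℝ) ^ g) * (X : ℝ) ^ (C - K)) ≤
        2 ^ (K / X) := by
      rw [← Real.log_le_log_iff (by positivity) (by positivity), Real.log_mul (by norm_num)
        (by positivity), Real.log_mul (by positivity) (by positivity), Real.log_mul (by positivity)
        (by positivity), Real.log_mul (by positivity) (by positivity), Real.log_pow, Real.log_pow,
        Real.log_pow, Real.log_pow, Real.log_rpow (by norm_num)]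
      have h1 : Real.log ((k : ℝ) + 1) ≤ 2 * Real.log k := by
        have h2 : (k : ℝ) + 1 ≤ k ^ 2 := by
          have h3 : 8 * (k : ℝ) ≤ k * k := mul_le_mul_of_nonneg_right hk8 hkp.le
          rw [sq]
          linarith
        calc Real.log ((k : ℝ) + 1) ≤ Real.log ((k : ℝ) ^ 2) := Real.log_le_log (by linarith) h2
          _ = 2 * Real.log k := by
            rw [Real.log_pow]
            norm_num
      have h2 : ((C - K : ℕ) : ℝ) ≤ (2 + 4 * b) * (k : ℝ) ^ M := by
        have h3 : C - K ≤ W := le_trans (Nat.le_mul_of_pos_left _ (by omega)) hWb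
        have h4 : ((C - K : ℕ) : ℝ) ≤ W := by exact_mod_cast h3
        have h5 : (2 + 4 * (b : ℝ)) * y ≤ (2 + 4 * b) * (k : ℝ) ^ M :=
          mul_le_mul_of_nonneg_left hyM (by positivity)
        linarith
      have h3 : ((C - K : ℕ) : ℝ) * Real.log X ≤ (2 + 4 * b) * ((k : ℝ) ^ M * Real.log k) := by
        calc ((C - K : ℕ) : ℝ) * Real.log X ≤ ((2 + 4 * b) * (k : ℝ) ^ M) * Real.log k := by
              refine mul_le_mul h2 (hlX.trans ?_) hlX0 (by positivity)
              exact mul_le_of_le_one_left hlogk0.le hx11.le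
          _ = _ := by ring
      have h4 : (k : ℝ) ^ (1 - x) / (2 * b) ≤ K / (k : ℝ) ^ x := by
        rw [div_le_div_iff₀ (by positivity) (by positivity)]
        have h5 : (k : ℝ) ^ (1 - x) * (k : ℝ) ^ x = k := by
          rw [← Real.rpow_add hkp]
          simp
        rw [h5]
        have h6 : (k : ℝ) < b * K + b + R + 2 * b := by
          have : k < b * K + b + R + 2 * b := by omega
          exact_mod_cast this
        linarith
      have h5 : (K : ℝ) / (k : ℝ) ^ x - 1 ≤ ((K / X : ℕ) : ℝ) := by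
        have h6 : (K : ℝ) < (X : ℝ) * ((K / X : ℕ) : ℝ) + X := by
          have h7 := Nat.lt_mul_div_succ K (show 0 < X by omega)
          have h8 : X * (K / X + 1) = X * (K / X) + X := by ring
          rw [h8] at h7
          exact_mod_cast h7
        have h7 : (K : ℝ) / (k : ℝ) ^ x ≤ K / X :=
          div_le_div_of_nonneg_left (Nat.cast_nonneg K) (by linarith) hXs
        have h8 : (K : ℝ) / X ≤ ((K / X : ℕ) : ℝ) + 1 := by
          rw [div_le_iff₀ (by linarith)]
          linarith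
        linarith
      have h6 : Real.log 2 / (2 * b) * (k : ℝ) ^ (1 - x) ≤ (((K / X : ℕ) : ℝ) + 1) * Real.log 2 := by
        calc Real.log 2 / (2 * b) * (k : ℝ) ^ (1 - x) = (k : ℝ) ^ (1 - x) / (2 * b) * Real.log 2 := by ring
          _ ≤ _ := mul_le_mul_of_nonneg_right (by linarith) hl2.le
      have h7 : (k : ℝ) ^ g * Real.log 2 ≤ (k : ℝ) ^ M * Real.log k :=
        mul_le_mul hgM' hlog2k hl2.le (by positivity)
      have h8 : Real.log k ≤ (k : ℝ) ^ M * Real.log k := le_mul_of_one_le_left hlogk0.le hkM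
      have h9 : (b : ℝ) * Real.log ((k : ℝ) + 1) ≤ 2 * b * ((k : ℝ) ^ M * Real.log k) := by
        have : (b : ℝ) * Real.log ((k : ℝ) + 1) ≤ b * (2 * ((k : ℝ) ^ M * Real.log k)) :=
          mul_le_mul_of_nonneg_left (by linarith) hb0.le
        linarith
      have h10 : (b : ℝ) * Real.log 2 ≤ b * ((k : ℝ) ^ M * Real.log k) :=
        mul_le_mul_of_nonneg_left (by linarith) hb0.le
      have h11 : 0 ≤ (k : ℝ) ^ M * Real.log k := by positivity
      have h12 : 0 ≤ (b : ℝ) * ((k : ℝ) ^ M * Real.log k) := by positivity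
      linarith
    calc 2 * (S.card * 2 ^ b * (2 : ℝ) ^ ((k : ℝ) ^ g) * (z : ℝ) ^ C)
        ≤ 2 * (((k : ℝ) + 1) ^ b * 2 ^ b * (2 : ℝ) ^ ((k : ℝ) ^ g) * (z : ℝ) ^ C) := by gcongr
      _ = 2 * (((k : ℝ) + 1) ^ b * 2 ^ b * (2 : ℝ) ^ ((k : ℝ) ^ g) * (z : ℝ) ^ (C - K)) * (z : ℝ) ^ K := by
          have h1 : (z : ℝ) ^ C = (z : ℝ) ^ (C - K) * (z : ℝ) ^ K := by
            rw [← pow_add]
            congr 1
            omega
          rw [h1]
          ring
      _ ≤ 2 * (((k : ℝ) + 1) ^ b * 2 ^ b * (2 : ℝ) ^ ((k : ℝ) ^ g) * (X : ℝ) ^ (C - K)) * (z : ℝ) ^ K := by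
          gcongr
      _ ≤ 2 ^ (K / X) * (z : ℝ) ^ K := mul_le_mul_of_nonneg_right hmainlog (by positivity)
      _ ≤ 2 ^ (K / z) * (z : ℝ) ^ K := by
          refine mul_le_mul_of_nonneg_right ?_ (by positivity)
          exact pow_le_pow_right₀ (by norm_num) (Nat.div_le_div_left hzX hz1)
      _ ≤ ((z : ℝ) + 1) ^ K := bern hz1
  have hmain := explicit hD hb1 (fun w hw => (hS w hw).1) hc hWb hLY hL1 hcardP hprime hXle hnum
  refine lt_of_lt_of_le ?_ hmain
  rw [← one_div]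
  refine one_div_lt_one_div_of_lt (by positivity) ?_
  rw [← Real.log_lt_log_iff (by positivity) (by positivity), Real.log_rpow hkp,
    Real.log_mul (by norm_num) (by positivity), Real.log_pow]
  have hCr : (C : ℝ) ≤ ((k : ℝ) + y) / b + 1 := by
    rw [hC]
    push_cast
    have h1 : (((k + R) / b : ℕ) : ℝ) ≤ ((k + R : ℕ) : ℝ) / b := Nat.cast_div_le
    push_cast at h1
    have h2 : ((k : ℝ) + R) / b ≤ ((k : ℝ) + y) / b := div_le_div_of_nonneg_right (by linarith) hb0.le
    linarith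
  have h1 : (C : ℝ) * Real.log X ≤ (((k : ℝ) + y) / b + 1) * (x * Real.log k) :=
    mul_le_mul hCr hlX hlX0 (by positivity)
  have h3 : 1 + (((k : ℝ) + y) / b + 1) * x < e * k := by
    rw [← hy] at F4
    have h4 : x / b * y ≤ x / b * (y * Real.log k) := by
      refine mul_le_mul_of_nonneg_left hylog (by positivity)
    have h5 : (((k : ℝ) + y) / b + 1) * x = x / b * k + x / b * y + x := by
      field_simp
    have h6 : 0 < e - x / b := by
      rw [sub_pos, div_lt_iff₀ hb0]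
      linarith
    have h7 : 0 < (e - x / b) * k := mul_pos h6 hkp
    rw [h5]
    linarith
  calc Real.log 2 + (C : ℝ) * Real.log X ≤ (1 + (((k : ℝ) + y) / b + 1) * x) * Real.log k := by
        have h4 : (((k : ℝ) + y) / b + 1) * (x * Real.log k) =
          (((k : ℝ) + y) / b + 1) * x * Real.log k := by ring
        linarith
    _ < e * k * Real.log k := mul_lt_mul_of_pos_right h3 hlogk0

end Pool.Agent.NH24.GD
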