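import Pool.Agent.NH24.GD.G

/-!
# Multiple zeta values of weight `k` whose arguments are near multiples of `k / b`: the theorem
-/

set_option autoImplicit false

namespace Pool.Agent.NH24.GD

open Finset Filter

lemma near_of {b k : ℕ} {r : ℝ} (hr : 0 ≤ r) {x a : ℕ} (h : |(b : ℝ) * x - a * k| ≤ r) :
    a * k ≤ b * x + ⌊r⌋₊ ∧ b * x ≤ a * k + ⌊r⌋₊ := by
  rw [abs_le] at h
  obtain ⟨h2, h3⟩ := h
  constructor
  · by_contra hcon
    push Not at hcon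
    have h4 : ((a * k - b * x : ℕ) : ℝ) ≤ r := by
      rw [Nat.cast_sub (by omega)]
      push_cast
      linarith
    have h5 := Nat.le_floor h4
    omega
  · by_contra hcon
    push Not at hcon
    have h4 : ((b * x - a * k : ℕ) : ℝ) ≤ r := by
      rw [Nat.cast_sub (by omega)]
      push_cast
      linarith
    have h5 := Nat.le_floor h4
    omega

theorem main {b : ℕ} (hb : 2 ≤ b) {t g e : ℝ} (ht : 0 < t) (hg : 0 < g)
    (h : ((b : ℝ) - 1) * t + g < 1) (he : ((b : ℝ) - 1) * t < b * e) :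
    ∃ k0 : ℕ, ∀ k : ℕ, k0 ≤ k → ∀ S : Finset (List ℕ),
      (∀ w ∈ S, w.sum = k ∧ ∀ x ∈ w, ∃ a : ℕ, 1 ≤ a ∧ |(b : ℝ) * x - a * k| ≤ (k : ℝ) ^ t) →
      ∀ c : List ℕ → ℤ, (∃ w ∈ S, c w ≠ 0) → (∀ w ∈ S, |(c w : ℝ)| ≤ (2 : ℝ) ^ ((k : ℝ) ^ g)) →
      ((k : ℝ) ^ (e * k))⁻¹ < |∑ w ∈ S, (c w : ℝ) * mzv w| := by
  obtain ⟨k0, h0⟩ := powers hb ht hg h he
  refine ⟨k0, fun k hk S hS c hc hcH => h0 k hk S (fun w hw => ?_) c hc hcH⟩
  obtain ⟨h1, h2⟩ := hS w hw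
  refine ⟨h1, fun x hx => ?_⟩
  obtain ⟨a, h3, h4⟩ := h2 x hx
  exact ⟨a, h3, near_of (by positivity) h4⟩

end Pool.Agent.NH24.GD
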