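import Pool.Agent.NH24.GD.P
import Pool.Agent.NH24.GD.H

/-!
# Multiple zeta values of weight `k` whose arguments are near multiples of `k / b`: coefficients in a
space of numbers with a measure of linear independence
-/

set_option autoImplicit false

namespace Pool.Agent.NH24.GD

open Finset Filter

section

variable {K C b : ℕ} {al : ℕ → ℕ} {S : Finset (List ℕ)} {c : List ℕ → ℤ} {H : ℝ}

lemma AA_le (h : Data K C b al S c H) (B : ℕ) {y : ℕ} (hy : 1 ≤ y) :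
    |AA al S c B y| ≤ S.card * 2 ^ b * H / (y : ℝ) ^ K := by
  have hH := h.hH
  unfold AA
  refine (abs_sum_le_sum_abs _ _).trans ?_
  calc ∑ w ∈ S, |∑ n ∈ (dec w.length (B + 1)).filter (fun n => sz al n w = y), (c w : ℝ) / (pw n w : ℝ)|
      ≤ ∑ w ∈ S, 2 ^ b * (H / (y : ℝ) ^ K) := by
        refine sum_le_sum fun w hw => ?_
        refine (abs_sum_le_sum_abs _ _).trans ?_
        calc ∑ n ∈ (dec w.length (B + 1)).filter (fun n => sz al n w = y), |(c w : ℝ) / (pw n w : ℝ)|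
            ≤ ∑ n ∈ (dec w.length (B + 1)).filter (fun n => sz al n w = y),
                H / (y : ℝ) ^ K * (1 / ((n.prod : ℕ) : ℝ) ^ 2) := by
              refine sum_le_sum fun n hn => ?_
              rw [mem_filter, mem_dec] at hn
              obtain ⟨⟨h2, h3, h4⟩, h5⟩ := hn
              have h6 : (0 : ℝ) < pw n w := by exact_mod_cast one_le_pw n w h4
              have h7 := size_le al K n w h2 h4 (fun x hx => (h.hS w hw x hx).2.1)
              have h8 : 1 ≤ n.prod := List.prod_pos h4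
              have h9 : (0 : ℝ) < (n.prod : ℕ) := by exact_mod_cast h8
              rw [h5] at h7
              have h10 : (y : ℝ) ^ K * ((n.prod : ℕ) : ℝ) ^ 2 ≤ (pw n w : ℝ) := by exact_mod_cast h7
              rw [abs_div, abs_of_pos h6, div_mul_div_comm, mul_one]
              exact div_le_div₀ hH (h.hc w hw) (by positivity) h10
          _ ≤ ∑ n ∈ dec w.length (B + 1), H / (y : ℝ) ^ K * (1 / ((n.prod : ℕ) : ℝ) ^ 2) :=
              sum_le_sum_of_subset_of_nonneg (filter_subset _ _) fun _ _ _ => by positivity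
          _ = H / (y : ℝ) ^ K * ∑ n ∈ dec w.length (B + 1), 1 / ((n.prod : ℕ) : ℝ) ^ 2 := by
              rw [mul_sum]
          _ ≤ H / (y : ℝ) ^ K * 2 ^ w.length :=
              mul_le_mul_of_nonneg_left (sum_prod_le _ _) (by positivity)
          _ ≤ H / (y : ℝ) ^ K * 2 ^ b :=
              mul_le_mul_of_nonneg_left (pow_le_pow_right₀ (by norm_num) (h.len hw)) (by positivity)
          _ = 2 ^ b * (H / (y : ℝ) ^ K) := by ring
    _ = S.card * 2 ^ b * H / (y : ℝ) ^ K := by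
        rw [sum_const, nsmul_eq_mul]
        ring

end

/-- a measure of linear independence -/
def Measure {n : ℕ} (Θ : Fin n → ℝ) (c0 : ℝ) (κ : ℕ) : Prop :=
  ∀ P : Fin n → ℤ, P ≠ 0 → ∀ H : ℝ, 1 ≤ H → (∀ i, |(P i : ℝ)| ≤ H) → c0 / H ^ κ ≤ |∑ i, (P i : ℝ) * Θ i|

theorem general {n : ℕ} {Θ : Fin n → ℝ} {c0 : ℝ} (hc0 : 0 < c0) {κ : ℕ} (hΘ : Measure Θ c0 κ)
    {b : ℕ} (hb : 2 ≤ b) {t g e : ℝ} (ht : 0 < t) (hg : 0 < g)
    (h : ((b : ℝ) - 1) * t + g < 1) (he : ((b : ℝ) - 1) * t < b * e) :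
    ∃ k0 : ℕ, ∀ k : ℕ, k0 ≤ k → ∀ S : Finset (List ℕ), Near b k ⌊(k : ℝ) ^ t⌋₊ S →
      ∀ P : List ℕ → Fin n → ℤ, (∃ w ∈ S, P w ≠ 0) →
      (∀ w ∈ S, ∀ i, |(P w i : ℝ)| ≤ (2 : ℝ) ^ ((k : ℝ) ^ g)) →
      ((k : ℝ) ^ (e * k))⁻¹ < |∑ w ∈ S, (∑ i, (P w i : ℝ) * Θ i) * mzv w| := by
  classical
  obtain ⟨B0, hB0⟩ : ∃ B0, B0 = ∑ i, |Θ i| := ⟨_, rfl⟩
  have hB00 : 0 ≤ B0 := by
    rw [hB0]
    positivity
  obtain ⟨A, hA⟩ : ∃ A, A = max 1 (2 * (B0 + 1) / c0) := ⟨_, rfl⟩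
  have hA1 : 1 ≤ A := by rw [hA]; exact le_max_left _ _
  have hA2 : 2 * (B0 + 1) / c0 ≤ A := by rw [hA]; exact le_max_right _ _
  obtain ⟨k0, hk0⟩ := params hb ht hg h he hA1 (κ + 1)
  refine ⟨k0, fun k hk S hS P hP hPH => ?_⟩
  obtain ⟨K, C, W, L, Y, X, hKC, hX1, hdat, hWb, hLY, hL1, hcardP, hprime, hXle, hnum, hfin⟩ := hk0 k hk
  obtain ⟨hcard, hdata⟩ := hdat S hS
  obtain ⟨H, hH⟩ : ∃ H, H = (2 : ℝ) ^ ((k : ℝ) ^ g) := ⟨_, rfl⟩
  rw [← hH] at hdata hprime hnum hfin hPH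
  have hH1 : 1 ≤ H := by
    rw [hH]
    exact Real.one_le_rpow (by norm_num) (by positivity)
  have hD : ∀ i, Data K C b (alpha b k) S (fun w => P w i) H := fun i =>
    hdata (fun w => P w i) fun w hw => hPH w hw i
  have hcardr : (S.card : ℝ) ≤ ((k : ℝ) + 1) ^ b := by exact_mod_cast hcard
  have hcard1 : (1 : ℝ) ≤ S.card := by
    obtain ⟨w, hw, -⟩ := hP
    exact_mod_cast Finset.card_pos.2 ⟨w, hw⟩
  -- a class that does not vanish
  have hex : ∃ x, 1 ≤ x ∧ x ≤ X ∧ ∃ i, AA (alpha b k) S (fun w => P w i) X x ≠ 0 := by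
    obtain ⟨w, hw, hPw⟩ := hP
    obtain ⟨i, hi⟩ : ∃ i, P w i ≠ 0 := by
      by_contra hcon
      push Not at hcon
      exact hPw (funext hcon)
    obtain ⟨x, hx1, hxX, hxA⟩ := exists_class (hD i) (by omega) (fun w hw => (hS w hw).1) ⟨w, hw, hi⟩
      hWb hLY hL1 hcardP hprime hXle
    exact ⟨x, hx1, hxX, i, hxA⟩
  obtain ⟨hx1, hxX, hxA⟩ := Nat.find_spec hex
  obtain ⟨x, hx⟩ : ∃ x, x = Nat.find hex := ⟨_, rfl⟩
  have hmin : ∀ i, ∀ y, 1 ≤ y → y < x → AA (alpha b k) S (fun w => P w i) X y = 0 := by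
    intro i y hy1 hy2
    by_contra hcon
    rw [hx] at hy2
    exact Nat.find_min hex hy2 ⟨hy1, by omega, i, hcon⟩
  rw [← hx] at hx1 hxX hxA
  obtain ⟨i0, hi0⟩ := hxA
  have hx0 : (1 : ℝ) ≤ x := by exact_mod_cast hx1
  have hxp : (0 : ℝ) < x := by linarith
  have hxXr : (x : ℝ) ≤ X := by exact_mod_cast hxX
  -- the bracket
  obtain ⟨E, hE⟩ : ∃ E, E = ((k : ℝ) + 1) ^ b * 2 ^ b * H * (x : ℝ) ^ (C - K) := ⟨_, rfl⟩
  obtain ⟨E', hE'⟩ : ∃ E', E' = ((k : ℝ) + 1) ^ b * 2 ^ b * H * (X : ℝ) ^ (C - K) := ⟨_, rfl⟩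
  have hEE' : E ≤ E' := by
    rw [hE, hE']
    gcongr
  have hE1 : 1 ≤ E := by
    rw [hE]
    have e1 : (1 : ℝ) ≤ ((k : ℝ) + 1) ^ b := one_le_pow₀ (by
      have : (0 : ℝ) ≤ k := Nat.cast_nonneg k
      linarith)
    have e2 : (1 : ℝ) ≤ 2 ^ b := one_le_pow₀ (by norm_num)
    have e3 : (1 : ℝ) ≤ (x : ℝ) ^ (C - K) := one_le_pow₀ hx0
    exact one_le_mul_of_one_le_of_one_le (one_le_mul_of_one_le_of_one_le
      (one_le_mul_of_one_le_of_one_le e1 e2) hH1) e3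
  have hE0 : 0 < E := by linarith
  have hSE : (S.card : ℝ) * 2 ^ b * H * (x : ℝ) ^ (C - K) ≤ E := by
    rw [hE]
    gcongr
  have hCK : (x : ℝ) ^ C = (x : ℝ) ^ (C - K) * (x : ℝ) ^ K := by
    rw [← pow_add]
    congr 1
    omega
  -- the main term
  have hmainterm : c0 / (E ^ κ * (x : ℝ) ^ C) ≤ |∑ i, Θ i * AA (alpha b k) S (fun w => P w i) X x| := by
    have hz : ∀ i, ∃ z : ℤ, AA (alpha b k) S (fun w => P w i) X x * (x : ℝ) ^ C = z := fun i =>
      AA_int (hD i) X x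
    choose z hz using hz
    have hzE : ∀ i, |(z i : ℝ)| ≤ E := by
      intro i
      rw [← hz i, abs_mul, abs_of_pos (pow_pos hxp C)]
      calc |AA (alpha b k) S (fun w => P w i) X x| * (x : ℝ) ^ C
          ≤ (S.card * 2 ^ b * H / (x : ℝ) ^ K) * (x : ℝ) ^ C :=
            mul_le_mul_of_nonneg_right (AA_le (hD i) X hx1) (by positivity)
        _ = (S.card : ℝ) * 2 ^ b * H * (x : ℝ) ^ (C - K) := by
            rw [hCK]
            field_simp
        _ ≤ E := hSE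
    have hz0 : z ≠ 0 := by
      intro h0
      have h1 := hz i0
      rw [h0, Pi.zero_apply, Int.cast_zero, mul_eq_zero] at h1
      exact h1.elim hi0 (pow_ne_zero _ hxp.ne')
    have h1 := hΘ z hz0 E hE1 hzE
    have h2 : ∑ i, (z i : ℝ) * Θ i = (∑ i, Θ i * AA (alpha b k) S (fun w => P w i) X x) * (x : ℝ) ^ C := by
      rw [sum_mul]
      refine sum_congr rfl fun i _ => ?_
      rw [← hz i]
      ring
    rw [h2, abs_mul, abs_of_pos (pow_pos hxp C)] at h1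
    rw [← div_div, div_le_iff₀ (pow_pos hxp C)]
    exact h1
  -- the tail
  have htail : ∀ M, |∑ i, Θ i * G2 (alpha b k) S (fun w => P w i) M x| ≤
      B0 * (S.card * 2 ^ b * H / ((x : ℝ) + 1) ^ K) := by
    intro M
    refine (abs_sum_le_sum_abs _ _).trans ?_
    rw [hB0, sum_mul]
    refine sum_le_sum fun i _ => ?_
    rw [abs_mul]
    exact mul_le_mul_of_nonneg_left (G2_le (hD i) M x) (abs_nonneg _)
  have htail2 : B0 * (S.card * 2 ^ b * H / ((x : ℝ) + 1) ^ K) ≤ c0 / (E ^ κ * (x : ℝ) ^ C) / 2 := by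
    have h1 := hnum x hx1 hxX
    rw [← hE] at h1
    have h2 := DZ.bern (K := K) hx1
    have h3 : A * E ^ (κ + 1) * (x : ℝ) ^ K ≤ ((x : ℝ) + 1) ^ K :=
      (mul_le_mul_of_nonneg_right h1 (by positivity)).trans h2
    have h4 : 2 * (B0 + 1) ≤ A * c0 := by
      rw [div_le_iff₀ hc0] at hA2
      exact hA2
    rw [mul_div_assoc', div_div, div_le_div_iff₀ (by positivity) (by positivity)]
    calc B0 * (S.card * 2 ^ b * H) * (E ^ κ * (x : ℝ) ^ C * 2)
        = 2 * B0 * E ^ κ * ((S.card : ℝ) * 2 ^ b * H * (x : ℝ) ^ (C - K)) * (x : ℝ) ^ K := by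
          rw [hCK]
          ring
      _ ≤ 2 * B0 * E ^ κ * E * (x : ℝ) ^ K := by gcongr
      _ = (2 * B0) * (E ^ (κ + 1) * (x : ℝ) ^ K) := by
          rw [pow_succ]
          ring
      _ ≤ (A * c0) * (E ^ (κ + 1) * (x : ℝ) ^ K) :=
          mul_le_mul_of_nonneg_right (by linarith) (by positivity)
      _ = c0 * (A * E ^ (κ + 1) * (x : ℝ) ^ K) := by ring
      _ ≤ c0 * ((x : ℝ) + 1) ^ K := mul_le_mul_of_nonneg_left h3 hc0.le
  -- the limit
  have hlim : Tendsto (fun M : ℕ => |∑ w ∈ S, (∑ i, (P w i : ℝ) * Θ i) * trunc w (M + 1)|) atTop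
      (nhds |∑ w ∈ S, (∑ i, (P w i : ℝ) * Θ i) * mzv w|) := by
    refine Tendsto.abs ?_
    refine tendsto_finsetSum _ fun w hw => ?_
    refine Tendsto.const_mul _ (tendsto_trunc w fun x hx => ?_)
    have := (hdata (fun _ => 0) (fun w _ => by
      rw [Int.cast_zero, abs_zero]
      linarith)).hS w hw x hx
    omega
  have hlow : c0 / (E ^ κ * (x : ℝ) ^ C) / 2 ≤ |∑ w ∈ S, (∑ i, (P w i : ℝ) * Θ i) * mzv w| := by
    refine ge_of_tendsto hlim ?_
    filter_upwards [eventually_ge_atTop x] with M hM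
    have h1 : ∑ w ∈ S, (∑ i, (P w i : ℝ) * Θ i) * trunc w (M + 1) =
        ∑ i, Θ i * AA (alpha b k) S (fun w => P w i) X x +
        ∑ i, Θ i * G2 (alpha b k) S (fun w => P w i) M x := by
      rw [← sum_add_distrib]
      have h2 : ∀ i, Θ i * AA (alpha b k) S (fun w => P w i) X x +
          Θ i * G2 (alpha b k) S (fun w => P w i) M x =
          Θ i * ∑ w ∈ S, (P w i : ℝ) * trunc w (M + 1) := by
        intro i
        rw [← mul_add, split (al := alpha b k) S (fun w => P w i) M x, G1_eq (hD i) hM hxX]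
        congr 2
        rw [← Finset.sum_subset (Finset.singleton_subset_iff.2 (mem_Icc.2 ⟨hx1, le_rfl⟩)), sum_singleton]
        intro y hy hyx
        rw [mem_Icc] at hy
        rw [mem_singleton] at hyx
        exact hmin i y hy.1 (by omega)
      rw [sum_congr rfl fun i _ => h2 i]
      simp only [mul_sum, sum_mul]
      rw [sum_comm]
      refine sum_congr rfl fun i _ => sum_congr rfl fun w _ => ?_
      ring
    rw [h1]
    have h7 := abs_sub_abs_le_abs_sub (∑ i, Θ i * AA (alpha b k) S (fun w => P w i) X x)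
      (-∑ i, Θ i * G2 (alpha b k) S (fun w => P w i) M x)
    rw [sub_neg_eq_add, abs_neg] at h7
    have h8 := htail M
    linarith
  refine lt_of_lt_of_le ?_ hlow
  -- the final inequality
  have h1 : A * E' ^ (κ + 1) * (X : ℝ) ^ C < (k : ℝ) ^ (e * k) := by
    rw [hE']
    exact hfin
  have h2 : 1 / (A * E' ^ (κ + 1) * (X : ℝ) ^ C) ≤ c0 / (E ^ κ * (x : ℝ) ^ C) / 2 := by
    have hX0 : (0 : ℝ) < X := by
      have : 0 < X := by omega
      exact_mod_cast this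
    have hE'0 : 0 < E' := by linarith
    have hA0 : 0 < A := by linarith
    rw [div_div, div_le_div_iff₀ (by positivity) (by positivity), one_mul]
    have h4 : 2 * (B0 + 1) ≤ A * c0 := by
      rw [div_le_iff₀ hc0] at hA2
      exact hA2
    have h5 : E ^ κ ≤ E' ^ (κ + 1) := by
      calc E ^ κ ≤ E' ^ κ := pow_le_pow_left₀ hE0.le hEE' κ
        _ ≤ E' ^ (κ + 1) := pow_le_pow_right₀ (by linarith) (by omega)
    calc E ^ κ * (x : ℝ) ^ C * 2 ≤ E' ^ (κ + 1) * (X : ℝ) ^ C * 2 := by gcongr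
      _ = 2 * (E' ^ (κ + 1) * (X : ℝ) ^ C) := by ring
      _ ≤ (A * c0) * (E' ^ (κ + 1) * (X : ℝ) ^ C) :=
          mul_le_mul_of_nonneg_right (by linarith) (by positivity)
      _ = c0 * (A * E' ^ (κ + 1) * (X : ℝ) ^ C) := by ring
  refine lt_of_lt_of_le ?_ h2
  rw [← one_div]
  have hX0 : (0 : ℝ) < X := by
    have : 0 < X := by omega
    exact_mod_cast this
  have hE'0 : 0 < E' := by linarith
  exact one_div_lt_one_div_of_lt (by positivity) h1

end Pool.Agent.NH24.GD
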